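import Pool.Agent.Helper58.Scheme.Irr

set_option autoImplicit false

namespace Pool.Agent.Helper58.Scheme

universe u

variable {V : Type u} {G : SimpleGraph V}

theorem exhaust {α β γ : Fin 4} (h1 : α ≠ β) (h2 : α ≠ γ) (h3 : β ≠ γ) (h4 : α ≠ 3) (h5 : β ≠ 3)
    (h6 : γ ≠ 3) (x : Fin 4) : x = α ∨ x = β ∨ x = γ ∨ x = 3 := by
  revert α β γ x; decide

/-- three distinct colours different from 3 -/
structure Cols (α β γ : Fin 4) : Prop where
  ab : α ≠ β
  ac : α ≠ γ
  bc : β ≠ γ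
  a3 : α ≠ 3
  b3 : β ≠ 3
  c3 : γ ≠ 3

theorem Cols.exh {α β γ : Fin 4} (h : Cols α β γ) (x : Fin 4) :
    x = α ∨ x = β ∨ x = γ ∨ x = 3 := exhaust h.ab h.ac h.bc h.a3 h.b3 h.c3 x

theorem good_root {Q : V → Fin 4} {α β γ : Fin 4} (hc : Cols α β γ) {v u c d : V} (hv : Q v = 3)
    (hu : Q u = α) (hcc : Q c = β) (hd : Q d = γ) (hvu : G.Adj v u) (hvc : G.Adj v c)
    (hvd : G.Adj v d) (huc : Linked G Q u c) (hud : Linked G Q u d) (hcd : Linked G Q c d) :
    Good G Q := by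
  refine good_of_four (a := v) (b := u) (c := c) (d := d) ?_ ?_ ?_ ?_ ?_ ?_
    (Linked.of_adj hvu) (Linked.of_adj hvc) (Linked.of_adj hvd) huc hud hcd
  · rw [hv, hu]; exact hc.a3.symm
  · rw [hv, hcc]; exact hc.b3.symm
  · rw [hv, hd]; exact hc.c3.symm
  · rw [hu, hcc]; exact hc.ab
  · rw [hu, hd]; exact hc.ac
  · rw [hcc, hd]; exact hc.bc

theorem two_dup_aux (hcf : ClawFree G) {Q : V → Fin 4} (hQ : Proper G Q) {α β γ : Fin 4}
    (hc : Cols α β γ) {v u u' c c' d : V} (hv : Q v = 3)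
    (hu : Q u = α) (hu' : Q u' = α) (hcc : Q c = β) (hcc' : Q c' = β) (hd : Q d = γ)
    (huu : u ≠ u') (hcne : c ≠ c')
    (hvu : G.Adj v u) (hvu' : G.Adj v u') (hvc : G.Adj v c) (hvc' : G.Adj v c') (hvd : G.Adj v d)
    (hdu : G.Adj u d) (hdc : G.Adj c d) : Good G Q := by
  have nuu : ¬G.Adj u u' := fun h => hQ _ _ h (hu.trans hu'.symm)
  have ncc : ¬G.Adj c c' := fun h => hQ _ _ h (hcc.trans hcc'.symm)
  have huc_ne : u ≠ c := fun e => hc.ab (by rw [← hu, ← hcc, e])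
  have huc'_ne : u ≠ c' := fun e => hc.ab (by rw [← hu, ← hcc', e])
  have hu'c_ne : u' ≠ c := fun e => hc.ab (by rw [← hu', ← hcc, e])
  have hu'c'_ne : u' ≠ c' := fun e => hc.ab (by rw [← hu', ← hcc', e])
  have hu'd_ne : u' ≠ d := fun e => hc.ac (by rw [← hu', ← hd, e])
  have hc'd_ne : c' ≠ d := fun e => hc.bc (by rw [← hcc', ← hd, e])
  by_cases huc : G.Adj u c
  · exact good_root hc hv hu hcc hd hvu hvc hvd (Linked.of_adj huc) (Linked.of_adj hdu)
      (Linked.of_adj hdc)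
  have h1 : G.Adj u c' := by
    rcases hcf v u c c' hvu hvc hvc' huc_ne huc'_ne hcne with h | h | h
    · exact absurd h huc
    · exact h
    · exact absurd h ncc
  have h2 : G.Adj u' c := by
    rcases hcf v u u' c hvu hvu' hvc huu huc_ne hu'c_ne with h | h | h
    · exact absurd h nuu
    · exact absurd h huc
    · exact h
  by_cases h3 : G.Adj u' c'
  · have hl : Linked G Q u c := by
      refine ⟨SimpleGraph.Walk.cons h1 (SimpleGraph.Walk.cons h3.symm h2.toWalk), fun z hz => ?_⟩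
      simp [SimpleGraph.Adj.toWalk] at hz
      rcases hz with rfl | rfl | rfl | rfl
      · exact Or.inl rfl
      · exact Or.inr (hcc'.trans hcc.symm)
      · exact Or.inl (hu'.trans hu.symm)
      · exact Or.inr rfl
    exact good_root hc hv hu hcc hd hvu hvc hvd hl (Linked.of_adj hdu) (Linked.of_adj hdc)
  · rcases hcf v u' c' d hvu' hvc' hvd hu'c'_ne hu'd_ne hc'd_ne with h | h | h
    · exact absurd h h3
    · exact good_root hc hv hu' hcc hd hvu' hvc hvd (Linked.of_adj h2) (Linked.of_adj h)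
        (Linked.of_adj hdc)
    · exact good_root hc hv hu hcc' hd hvu hvc' hvd (Linked.of_adj h1) (Linked.of_adj hdu)
        (Linked.of_adj h)

theorem two_dup (hcf : ClawFree G) {Q : V → Fin 4} (hQ : Proper G Q) {α β γ : Fin 4}
    (hc : Cols α β γ) {v u u' c c' d : V} (hv : Q v = 3)
    (hu : Q u = α) (hu' : Q u' = α) (hcc : Q c = β) (hcc' : Q c' = β) (hd : Q d = γ)
    (huu : u ≠ u') (hcne : c ≠ c')
    (hvu : G.Adj v u) (hvu' : G.Adj v u') (hvc : G.Adj v c) (hvc' : G.Adj v c')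
    (hvd : G.Adj v d) : Good G Q := by
  have nuu : ¬G.Adj u u' := fun h => hQ _ _ h (hu.trans hu'.symm)
  have ncc : ¬G.Adj c c' := fun h => hQ _ _ h (hcc.trans hcc'.symm)
  have hud_ne : u ≠ d := fun e => hc.ac (by rw [← hu, ← hd, e])
  have hu'd_ne : u' ≠ d := fun e => hc.ac (by rw [← hu', ← hd, e])
  have hcd_ne : c ≠ d := fun e => hc.bc (by rw [← hcc, ← hd, e])
  have hc'd_ne : c' ≠ d := fun e => hc.bc (by rw [← hcc', ← hd, e])
  have h1 : G.Adj u d ∨ G.Adj u' d := by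
    rcases hcf v u u' d hvu hvu' hvd huu hud_ne hu'd_ne with h | h | h
    · exact absurd h nuu
    · exact Or.inl h
    · exact Or.inr h
  have h2 : G.Adj c d ∨ G.Adj c' d := by
    rcases hcf v c c' d hvc hvc' hvd hcne hcd_ne hc'd_ne with h | h | h
    · exact absurd h ncc
    · exact Or.inl h
    · exact Or.inr h
  rcases h1 with h1 | h1 <;> rcases h2 with h2 | h2
  · exact two_dup_aux hcf hQ hc hv hu hu' hcc hcc' hd huu hcne hvu hvu' hvc hvc' hvd h1 h2
  · exact two_dup_aux hcf hQ hc hv hu hu' hcc' hcc hd huu hcne.symm hvu hvu' hvc' hvc hvd h1 h2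
  · exact two_dup_aux hcf hQ hc hv hu' hu hcc hcc' hd huu.symm hcne hvu' hvu hvc hvc' hvd h1 h2
  · exact two_dup_aux hcf hQ hc hv hu' hu hcc' hcc hd huu.symm hcne.symm hvu' hvu hvc' hvc hvd
      h1 h2

variable [Fintype V]

/-- if the Kempe change at `u` keeps the link between `c` and `d`, the new colouring is good -/
theorem flip_good {Q : V → Fin 4} (hm : Mini G Q) {α β γ : Fin 4}
    (hc : Cols α β γ) {v u u' c d : V} (hv : Q v = 3)
    (hu : Q u = α) (hu' : Q u' = α) (hcc : Q c = β) (hd : Q d = γ)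
    (hvu' : G.Adj v u') (hvc : G.Adj v c) (hvd : G.Adj v d)
    (hall : ∀ x, G.Adj v x → x = u ∨ x = u' ∨ x = c ∨ x = d)
    (hu'd : G.Adj u' d) {W : Set V} (hW : Closed G Q α γ W) (huW : u ∈ W) (hu'W : u' ∉ W)
    (hdW : d ∉ W) (hcd : Linked G (flip Q α γ W) c d) : Good G (flip Q α γ W) := by
  have hcW : c ∉ W := fun h => by
    rcases hW.1 c h with h' | h'
    · exact hc.ab (h'.symm.trans hcc)
    · exact hc.bc (hcc.symm.trans h')
  have hvW : v ∉ W := fun h => by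
    rcases hW.1 v h with h' | h'
    · exact hc.a3 (h'.symm.trans hv)
    · exact hc.c3 (h'.symm.trans hv)
  have hm' := hm.flip hc.a3 hc.c3 hW
  have qv : flip Q α γ W v = 3 := by rw [flip_of_notMem hvW, hv]
  have qu : flip Q α γ W u = γ := by rw [flip_of_mem huW, hu, Equiv.swap_apply_left]
  have qu' : flip Q α γ W u' = α := by rw [flip_of_notMem hu'W, hu']
  have qc : flip Q α γ W c = β := by rw [flip_of_notMem hcW, hcc]
  have qd : flip Q α γ W d = γ := by rw [flip_of_notMem hdW, hd]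
  have hl : Linked G (flip Q α γ W) u' c := by
    refine hm'.linked qv hc.a3 hc.b3 hc.ab qu' qc ?_ ?_
    · intro x hx hxa
      rcases hall x hx with rfl | rfl | rfl | rfl
      · exact absurd (hxa.symm.trans qu) hc.ac
      · rfl
      · exact absurd (hxa.symm.trans qc) hc.ab
      · exact absurd (hxa.symm.trans qd) hc.ac
    · intro x hx hxb
      rcases hall x hx with rfl | rfl | rfl | rfl
      · exact absurd (hxb.symm.trans qu) hc.bc
      · exact absurd (hxb.symm.trans qu') hc.ab.symm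
      · rfl
      · exact absurd (hxb.symm.trans qd) hc.bc
  exact good_root hc qv qu' qc qd hvu' hvc hvd hl (Linked.of_adj hu'd) hcd

/-- the structure of the neighbourhood of a vertex of colour 3 -/
structure RootNbhd (G : SimpleGraph V) (Q : V → Fin 4) (v u c u' d : V) : Prop where
  vu : G.Adj v u
  vc : G.Adj v c
  vu' : G.Adj v u'
  vd : G.Adj v d
  uc : G.Adj u c
  u'd : G.Adj u' d
  col : ∃ α β γ, Cols α β γ ∧ Q u = α ∧ Q u' = α ∧ Q c = β ∧ Q d = γ
  all : ∀ x, G.Adj v x → x = u ∨ x = u' ∨ x = c ∨ x = d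
  ne : u ≠ u'
  nuu' : ¬G.Adj u u'
  nud : ¬G.Adj u d
  nu'c : ¬G.Adj u' c
  ncd : ¬G.Adj c d

theorem root_core {Q : V → Fin 4} (hm : Mini G Q)
    (hbad : ∀ Q', Proper G Q' → ¬Good G Q') {α β γ : Fin 4} (hc : Cols α β γ)
    {v u u' c d : V} (hv : Q v = 3)
    (hu : Q u = α) (hu' : Q u' = α) (hcc : Q c = β) (hd : Q d = γ) (hne : u ≠ u')
    (hvu : G.Adj v u) (hvu' : G.Adj v u') (hvc : G.Adj v c) (hvd : G.Adj v d)
    (hall : ∀ x, G.Adj v x → x = u ∨ x = u' ∨ x = c ∨ x = d)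
    (hlcd : Linked G Q c d)
    (huc : G.Adj u c) (hu'd : G.Adj u' d) (hud : ¬G.Adj u d) (hu'c : ¬G.Adj u' c) :
    RootNbhd G Q v u c u' d := by
  refine ⟨hvu, hvc, hvu', hvd, huc, hu'd, ⟨α, β, γ, hc, hu, hu', hcc, hd⟩, hall, hne,
    fun h => hm.1 _ _ h (hu.trans hu'.symm), hud, hu'c, ?_⟩
  intro hcd
  have hdW : d ∉ Comp G Q α γ u := fun h =>
    hbad Q hm.1 (good_root hc hv hu hcc hd hvu hvc hvd (Linked.of_adj huc)
      (linked_of_mem_comp hu hd h) hlcd)
  have hu'W : u' ∉ Comp G Q α γ u := fun h =>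
    hdW ((comp_closed Q α γ u).2 u' h d hu'd (Or.inr hd))
  exact hbad _ (flip_proper hm.1 (comp_closed Q α γ u))
    (flip_good hm hc hv hu hu' hcc hd hvu' hvc hvd hall hu'd (comp_closed Q α γ u)
      (self_mem_comp (Or.inl hu)) hu'W hdW (Linked.of_adj hcd))

theorem root_main (hcf : ClawFree G) {Q : V → Fin 4} (hm : Mini G Q)
    (hbad : ∀ Q', Proper G Q' → ¬Good G Q') {α β γ : Fin 4} (hc : Cols α β γ)
    {v u u' : V} (hv : Q v = 3) (hu : Q u = α) (hu' : Q u' = α) (hne : u ≠ u')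
    (hvu : G.Adj v u) (hvu' : G.Adj v u')
    (hb : ∀ x y, G.Adj v x → G.Adj v y → Q x = β → Q y = β → x = y)
    (hg : ∀ x y, G.Adj v x → G.Adj v y → Q x = γ → Q y = γ → x = y) :
    ∃ u c u' d, RootNbhd G Q v u c u' d := by
  obtain ⟨c, hvc, hcc⟩ := hm.sees hv hc.b3
  obtain ⟨d, hvd, hd⟩ := hm.sees hv hc.c3
  have hall : ∀ x, G.Adj v x → x = u ∨ x = u' ∨ x = c ∨ x = d := by
    intro x hx
    rcases hc.exh (Q x) with h | h | h | h
    · by_contra hcon
      push Not at hcon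
      rcases hcf v u u' x hvu hvu' hx hne hcon.1.symm hcon.2.1.symm with h' | h' | h'
      · exact hm.1 _ _ h' (hu.trans hu'.symm)
      · exact hm.1 _ _ h' (hu.trans h.symm)
      · exact hm.1 _ _ h' (hu'.trans h.symm)
    · exact Or.inr (Or.inr (Or.inl (hb x c hx hvc h hcc)))
    · exact Or.inr (Or.inr (Or.inr (hg x d hx hvd h hd)))
    · exact absurd (hv.trans h.symm) (hm.1 _ _ hx)
  have hlcd : Linked G Q c d := hm.linked hv hc.b3 hc.c3 hc.bc hcc hd
    (fun x hx h => hb x c hx hvc h hcc) (fun x hx h => hg x d hx hvd h hd)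
  have nuu : ¬G.Adj u u' := fun h => hm.1 _ _ h (hu.trans hu'.symm)
  have huc_ne : u ≠ c := fun e => hc.ab (by rw [← hu, ← hcc, e])
  have hu'c_ne : u' ≠ c := fun e => hc.ab (by rw [← hu', ← hcc, e])
  have hud_ne : u ≠ d := fun e => hc.ac (by rw [← hu, ← hd, e])
  have hu'd_ne : u' ≠ d := fun e => hc.ac (by rw [← hu', ← hd, e])
  have h1 : G.Adj u c ∨ G.Adj u' c := by
    rcases hcf v u u' c hvu hvu' hvc hne huc_ne hu'c_ne with h | h | h
    · exact absurd h nuu
    · exact Or.inl h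
    · exact Or.inr h
  have h2 : G.Adj u d ∨ G.Adj u' d := by
    rcases hcf v u u' d hvu hvu' hvd hne hud_ne hu'd_ne with h | h | h
    · exact absurd h nuu
    · exact Or.inl h
    · exact Or.inr h
  have h3 : ¬(G.Adj u c ∧ G.Adj u d) := fun h => hbad Q hm.1
    (good_root hc hv hu hcc hd hvu hvc hvd (Linked.of_adj h.1) (Linked.of_adj h.2) hlcd)
  have h4 : ¬(G.Adj u' c ∧ G.Adj u' d) := fun h => hbad Q hm.1
    (good_root hc hv hu' hcc hd hvu' hvc hvd (Linked.of_adj h.1) (Linked.of_adj h.2) hlcd)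
  rcases h1 with h1 | h1
  · have h5 : ¬G.Adj u d := fun h => h3 ⟨h1, h⟩
    have h6 : G.Adj u' d := h2.resolve_left h5
    have h7 : ¬G.Adj u' c := fun h => h4 ⟨h, h6⟩
    exact ⟨u, c, u', d, root_core hm hbad hc hv hu hu' hcc hd hne hvu hvu' hvc hvd hall hlcd
      h1 h6 h5 h7⟩
  · have h5 : ¬G.Adj u' d := fun h => h4 ⟨h1, h⟩
    have h6 : G.Adj u d := h2.resolve_right h5
    have h7 : ¬G.Adj u c := fun h => h3 ⟨h, h6⟩
    exact ⟨u', c, u, d, root_core hm hbad hc hv hu' hu hcc hd hne.symm hvu' hvu hvc hvd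
      (fun x hx => by rcases hall x hx with h | h | h | h <;> simp [h]) hlcd h1 h6 h5 h7⟩

theorem root_nbhd (hcf : ClawFree G) {Q : V → Fin 4} (hm : Mini G Q)
    (hbad : ∀ Q', Proper G Q' → ¬Good G Q') {v : V} (hv : Q v = 3) :
    ∃ u c u' d, RootNbhd G Q v u c u' d := by
  -- unique i : all neighbours of colour i coincide
  let U : Fin 4 → Prop := fun i => ∀ x y, G.Adj v x → G.Adj v y → Q x = i → Q y = i → x = y
  have c012 : Cols 0 1 2 := by constructor <;> decide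
  have c021 : Cols 0 2 1 := by constructor <;> decide
  have c102 : Cols 1 0 2 := by constructor <;> decide
  have c120 : Cols 1 2 0 := by constructor <;> decide
  have c201 : Cols 2 0 1 := by constructor <;> decide
  obtain ⟨a0, hva0, ha0⟩ := hm.sees hv (i := 0) (by decide)
  obtain ⟨a1, hva1, ha1⟩ := hm.sees hv (i := 1) (by decide)
  obtain ⟨a2, hva2, ha2⟩ := hm.sees hv (i := 2) (by decide)
  by_cases h0 : U 0 <;> by_cases h1 : U 1 <;> by_cases h2 : U 2
  · exfalso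
    refine hbad Q hm.1 (good_root c012 hv ha0 ha1 ha2 hva0 hva1 hva2 ?_ ?_ ?_)
    · exact hm.linked hv (by decide) (by decide) (by decide) ha0 ha1
        (fun x hx h => h0 x a0 hx hva0 h ha0) (fun x hx h => h1 x a1 hx hva1 h ha1)
    · exact hm.linked hv (by decide) (by decide) (by decide) ha0 ha2
        (fun x hx h => h0 x a0 hx hva0 h ha0) (fun x hx h => h2 x a2 hx hva2 h ha2)
    · exact hm.linked hv (by decide) (by decide) (by decide) ha1 ha2
        (fun x hx h => h1 x a1 hx hva1 h ha1) (fun x hx h => h2 x a2 hx hva2 h ha2)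
  · simp only [U] at h2; push Not at h2
    obtain ⟨u, u', hvu, hvu', hu, hu', hne⟩ := h2
    exact root_main hcf hm hbad c201 hv hu hu' hne hvu hvu' h0 h1
  · simp only [U] at h1; push Not at h1
    obtain ⟨u, u', hvu, hvu', hu, hu', hne⟩ := h1
    exact root_main hcf hm hbad c102 hv hu hu' hne hvu hvu' h0 h2
  · simp only [U] at h1 h2; push Not at h1 h2
    obtain ⟨u, u', hvu, hvu', hu, hu', hne⟩ := h1
    obtain ⟨c, c', hvc, hvc', hcc, hcc', hne'⟩ := h2
    exact absurd (two_dup hcf hm.1 c120 hv hu hu' hcc hcc' ha0 hne hne' hvu hvu' hvc hvc' hva0)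
      (hbad Q hm.1)
  · simp only [U] at h0; push Not at h0
    obtain ⟨u, u', hvu, hvu', hu, hu', hne⟩ := h0
    exact root_main hcf hm hbad c012 hv hu hu' hne hvu hvu' h1 h2
  · simp only [U] at h0 h2; push Not at h0 h2
    obtain ⟨u, u', hvu, hvu', hu, hu', hne⟩ := h0
    obtain ⟨c, c', hvc, hvc', hcc, hcc', hne'⟩ := h2
    exact absurd (two_dup hcf hm.1 c021 hv hu hu' hcc hcc' ha1 hne hne' hvu hvu' hvc hvc' hva1)
      (hbad Q hm.1)
  · simp only [U] at h0 h1; push Not at h0 h1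
    obtain ⟨u, u', hvu, hvu', hu, hu', hne⟩ := h0
    obtain ⟨c, c', hvc, hvc', hcc, hcc', hne'⟩ := h1
    exact absurd (two_dup hcf hm.1 c012 hv hu hu' hcc hcc' ha2 hne hne' hvu hvu' hvc hvc' hva2)
      (hbad Q hm.1)
  · simp only [U] at h0 h1; push Not at h0 h1
    obtain ⟨u, u', hvu, hvu', hu, hu', hne⟩ := h0
    obtain ⟨c, c', hvc, hvc', hcc, hcc', hne'⟩ := h1
    exact absurd (two_dup hcf hm.1 c012 hv hu hu' hcc hcc' ha2 hne hne' hvu hvu' hvc hvc' hva2)
      (hbad Q hm.1)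

end Pool.Agent.Helper58.Scheme
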