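import Pool.Agent.Helper58.Scheme.Defs

set_option autoImplicit false

namespace Pool.Agent.Helper58.Scheme

universe u

variable {V : Type u} {G : SimpleGraph V}

/-- proper colouring as a plain function -/
def Proper (G : SimpleGraph V) (Q : V → Fin 4) : Prop := ∀ x y, G.Adj x y → Q x ≠ Q y

/-- Kempe linked -/
def Linked (G : SimpleGraph V) (Q : V → Fin 4) (x y : V) : Prop :=
  ∃ p : G.Walk x y, ∀ z ∈ p.support, Q z = Q x ∨ Q z = Q y

theorem Linked.symm {Q : V → Fin 4} {x y : V} (h : Linked G Q x y) : Linked G Q y x := by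
  obtain ⟨p, hp⟩ := h
  refine ⟨p.reverse, fun z hz => ?_⟩
  rw [SimpleGraph.Walk.support_reverse, List.mem_reverse] at hz
  exact (hp z hz).symm

theorem Linked.of_adj {Q : V → Fin 4} {x y : V} (h : G.Adj x y) : Linked G Q x y := by
  refine ⟨h.toWalk, fun z hz => ?_⟩
  simp [SimpleGraph.Adj.toWalk] at hz
  rcases hz with rfl | rfl
  · exact Or.inl rfl
  · exact Or.inr rfl

/-- four pairwise linked vertices of pairwise distinct colours -/
def Good (G : SimpleGraph V) (Q : V → Fin 4) : Prop :=
  ∃ v : Fin 4 → V, (∀ i j, i ≠ j → Q (v i) ≠ Q (v j)) ∧ ∀ i j, i < j → Linked G Q (v i) (v j)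

theorem good_of_four {Q : V → Fin 4} {a b c d : V}
    (hab : Q a ≠ Q b) (hac : Q a ≠ Q c) (had : Q a ≠ Q d) (hbc : Q b ≠ Q c) (hbd : Q b ≠ Q d)
    (hcd : Q c ≠ Q d)
    (lab : Linked G Q a b) (lac : Linked G Q a c) (lad : Linked G Q a d)
    (lbc : Linked G Q b c) (lbd : Linked G Q b d) (lcd : Linked G Q c d) : Good G Q := by
  refine ⟨![a, b, c, d], ?_, ?_⟩
  · intro i j hij
    fin_cases i <;> fin_cases j <;>
      first
        | exact absurd rfl hij
        | simpa using hab
        | simpa using hac
        | simpa using had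
        | simpa using hbc
        | simpa using hbd
        | simpa using hcd
        | simpa using hab.symm
        | simpa using hac.symm
        | simpa using had.symm
        | simpa using hbc.symm
        | simpa using hbd.symm
        | simpa using hcd.symm
  · intro i j hij
    fin_cases i <;> fin_cases j <;>
      first
        | exact absurd hij (by decide)
        | exact lab
        | exact lac
        | exact lad
        | exact lbc
        | exact lbd
        | exact lcd

theorem scheme_of_good {Q : V → Fin 4} (hQ : Proper G Q) (h : Good G Q) :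
    Nonempty (ChromaticFourScheme G) := by
  classical
  obtain ⟨v, hv, hl⟩ := h
  choose p hp using hl
  have key : ∀ (i j : Fin 4) (h : i < j), ∀ x ∈ (p i j h).bypass.support,
      Q x = Q (v i) ∨ Q x = Q (v j) := by
    intro i j h x hx
    exact hp i j h x (SimpleGraph.Walk.support_bypass_subset_support _ hx)
  refine ⟨{ Q := SimpleGraph.Coloring.mk Q (fun {a b} hab => hQ a b hab), v := v,
            v_injective := ?_, link := fun i j h => (p i j h).bypass,
            link_isPath := fun i j h => SimpleGraph.Walk.bypass_isPath _,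
            link_disjoint := ?_, colours_distinct := hv, link_bicoloured := key }⟩
  · intro i j hij
    by_contra hne
    exact hv i j hne (by rw [hij])
  · intro i j k l hij hkl hik hil hjk hjl x hx hx'
    rcases key i j hij x hx with h1 | h1 <;> rcases key k l hkl x hx' with h2 | h2
    · exact hv i k hik (h1.symm.trans h2)
    · exact hv i l hil (h1.symm.trans h2)
    · exact hv j k hjk (h1.symm.trans h2)
    · exact hv j l hjl (h1.symm.trans h2)

/-- `W` consists of vertices coloured `i` or `j` and is a union of components of the subgraph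
on these two colours -/
def Closed (G : SimpleGraph V) (Q : V → Fin 4) (i j : Fin 4) (W : Set V) : Prop :=
  (∀ x ∈ W, Q x = i ∨ Q x = j) ∧ ∀ x ∈ W, ∀ y, G.Adj x y → (Q y = i ∨ Q y = j) → y ∈ W

open Classical in
/-- Kempe change -/
noncomputable def flip (Q : V → Fin 4) (i j : Fin 4) (W : Set V) : V → Fin 4 :=
  fun x => if x ∈ W then Equiv.swap i j (Q x) else Q x

theorem flip_of_mem {Q : V → Fin 4} {i j : Fin 4} {W : Set V} {x : V} (h : x ∈ W) :
    flip Q i j W x = Equiv.swap i j (Q x) := by simp [flip, h]

theorem flip_of_notMem {Q : V → Fin 4} {i j : Fin 4} {W : Set V} {x : V} (h : x ∉ W) :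
    flip Q i j W x = Q x := by simp [flip, h]

theorem flip_proper {Q : V → Fin 4} (hQ : Proper G Q) {i j : Fin 4} {W : Set V}
    (hW : Closed G Q i j W) : Proper G (flip Q i j W) := by
  intro x y hxy
  have hne := hQ x y hxy
  by_cases hx : x ∈ W <;> by_cases hy : y ∈ W
  · rw [flip_of_mem hx, flip_of_mem hy]
    exact fun h => hne ((Equiv.swap i j).injective h)
  · rw [flip_of_mem hx, flip_of_notMem hy]
    have hy' : ¬(Q y = i ∨ Q y = j) := fun h => hy (hW.2 x hx y hxy h)
    push Not at hy'
    rcases hW.1 x hx with h | h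
    · rw [h, Equiv.swap_apply_left]; exact hy'.2.symm
    · rw [h, Equiv.swap_apply_right]; exact hy'.1.symm
  · rw [flip_of_notMem hx, flip_of_mem hy]
    have hx' : ¬(Q x = i ∨ Q x = j) := fun h => hx (hW.2 y hy x hxy.symm h)
    push Not at hx'
    rcases hW.1 y hy with h | h
    · rw [h, Equiv.swap_apply_left]; exact hx'.2
    · rw [h, Equiv.swap_apply_right]; exact hx'.1
  · rw [flip_of_notMem hx, flip_of_notMem hy]; exact hne

theorem flip_eq_three {Q : V → Fin 4} {i j : Fin 4} {W : Set V} (hi : i ≠ 3) (hj : j ≠ 3)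
    (hW : ∀ x ∈ W, Q x = i ∨ Q x = j) (x : V) : flip Q i j W x = 3 ↔ Q x = 3 := by
  by_cases hx : x ∈ W
  · rw [flip_of_mem hx]
    rcases hW x hx with h | h
    · rw [h, Equiv.swap_apply_left]; exact ⟨fun h' => absurd h' hj, fun h' => absurd h' hi⟩
    · rw [h, Equiv.swap_apply_right]; exact ⟨fun h' => absurd h' hi, fun h' => absurd h' hj⟩
  · rw [flip_of_notMem hx]

/-- component of `a` in the two colours `i`, `j` -/
def Comp (G : SimpleGraph V) (Q : V → Fin 4) (i j : Fin 4) (a : V) : Set V :=
  {x | ∃ p : G.Walk a x, ∀ z ∈ p.support, Q z = i ∨ Q z = j}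

theorem comp_closed (Q : V → Fin 4) (i j : Fin 4) (a : V) : Closed G Q i j (Comp G Q i j a) := by
  constructor
  · rintro x ⟨p, hp⟩
    exact hp x p.end_mem_support
  · rintro x ⟨p, hp⟩ y hxy hy
    refine ⟨p.concat hxy, fun z hz => ?_⟩
    rw [SimpleGraph.Walk.support_concat, List.mem_append] at hz
    rcases hz with hz | hz
    · exact hp z hz
    · simp at hz; rw [hz]; exact hy

theorem self_mem_comp {Q : V → Fin 4} {i j : Fin 4} {a : V} (h : Q a = i ∨ Q a = j) :
    a ∈ Comp G Q i j a := ⟨SimpleGraph.Walk.nil, fun z hz => by simp at hz; rw [hz]; exact h⟩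

theorem linked_of_mem_comp {Q : V → Fin 4} {i j : Fin 4} {a b : V} (ha : Q a = i) (hb : Q b = j)
    (h : b ∈ Comp G Q i j a) : Linked G Q a b := by
  obtain ⟨p, hp⟩ := h
  exact ⟨p, fun z hz => by rw [ha, hb]; exact hp z hz⟩

end Pool.Agent.Helper58.Scheme
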