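import Mathlib

set_option autoImplicit false

namespace Pool.Agent.Helper58.Scheme

universe u

open Classical in
/-- in a component of a graph in which `degree + f ≤ 2`, the sum of `f` is at most 2 -/
theorem comp_sum_le {V : Type u} [Fintype V] (K : SimpleGraph V) (f : V → ℕ)
    (h : ∀ x, K.degree x + f x ≤ 2) (κ : K.ConnectedComponent) :
    ∑ x : κ.supp, f x ≤ 2 := by
  have hconn : (K.induce κ.supp).Connected := (κ.maximal_connected_induce_supp).prop
  have h1 := hconn.card_vert_le_card_edgeSet_add_one
  rw [Nat.card_eq_fintype_card, Nat.card_eq_fintype_card, ← SimpleGraph.edgeFinset_card] at h1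
  have h2 := SimpleGraph.sum_degrees_eq_twice_card_edges (K.induce κ.supp)
  have h3 : ∀ x : κ.supp, (K.induce κ.supp).degree x = K.degree x := by
    intro x
    convert SimpleGraph.degree_induce_of_neighborSet_subset (G := K) (s := κ.supp) (v := x) ?_
    intro y hy
    exact κ.mem_supp_of_adj_mem_supp x.2 hy
  have h4 : ∑ x : κ.supp, ((K.induce κ.supp).degree x + f x) ≤ ∑ _x : κ.supp, 2 := by
    apply Finset.sum_le_sum
    intro x _
    rw [h3]; exact h x
  rw [Finset.sum_add_distrib, h2, Finset.sum_const, Finset.card_univ, smul_eq_mul] at h4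
  omega

open Classical in
/-- parity and the previous bound give a component containing exactly one index -/
theorem exists_single {V : Type u} [Fintype V] (K : SimpleGraph V) {n : ℕ} [NeZero n] (hn : Odd n)
    (g : ZMod n → V)
    (h : ∀ x, K.degree x + (Finset.univ.filter (fun i => g i = x)).card ≤ 2) :
    ∃ q, ∀ i, K.Reachable (g q) (g i) → i = q := by
  have hfib : ∀ κ : K.ConnectedComponent,
      (Finset.univ.filter (fun i : ZMod n => K.connectedComponentMk (g i) = κ)).card ≤ 2 := by
    intro κ
    have h1 := comp_sum_le K (fun x => (Finset.univ.filter (fun i => g i = x)).card) h κ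
    refine le_trans (le_of_eq ?_) h1
    have h2 : (Finset.univ.filter (fun i : ZMod n => K.connectedComponentMk (g i) = κ)) =
        Finset.univ.biUnion (fun x : κ.supp => Finset.univ.filter (fun i => g i = (x : V))) := by
      ext i
      simp only [Finset.mem_filter, Finset.mem_univ, true_and, Finset.mem_biUnion]
      constructor
      · intro hi
        exact ⟨⟨g i, hi⟩, rfl⟩
      · rintro ⟨x, hx⟩
        rw [hx]; exact x.2
    rw [h2, Finset.card_biUnion]
    intro x _ y _ hxy
    rw [Function.onFun, Finset.disjoint_left]
    intro i hi hi'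
    simp only [Finset.mem_filter, Finset.mem_univ, true_and] at hi hi'
    exact hxy (Subtype.ext (hi.symm.trans hi'))
  have htot : (Finset.univ : Finset (ZMod n)).card = ∑ κ : K.ConnectedComponent,
      (Finset.univ.filter (fun i : ZMod n => K.connectedComponentMk (g i) = κ)).card :=
    Finset.card_eq_sum_card_fiberwise (fun _ _ => Finset.mem_coe.mpr (Finset.mem_univ _))
  rw [Finset.card_univ, ZMod.card] at htot
  by_contra hcon
  push Not at hcon
  apply (Nat.not_even_iff_odd.mpr hn)
  rw [htot]
  apply Finset.even_sum
  intro κ _
  by_contra hodd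
  rw [Nat.not_even_iff_odd] at hodd
  have h2 := hfib κ
  have h1 : (Finset.univ.filter (fun i : ZMod n => K.connectedComponentMk (g i) = κ)).card = 1 := by
    obtain ⟨k, hk⟩ := hodd
    omega
  rw [Finset.card_eq_one] at h1
  obtain ⟨q, hq⟩ := h1
  have hqm : q ∈ Finset.univ.filter (fun i : ZMod n => K.connectedComponentMk (g i) = κ) := by
    rw [hq]; exact Finset.mem_singleton_self q
  simp only [Finset.mem_filter, Finset.mem_univ, true_and] at hqm
  obtain ⟨i, hi, hne⟩ := hcon q
  apply hne
  have him : i ∈ Finset.univ.filter (fun i : ZMod n => K.connectedComponentMk (g i) = κ) := by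
    simp only [Finset.mem_filter, Finset.mem_univ, true_and]
    rw [← hqm]
    exact (SimpleGraph.ConnectedComponent.eq.mpr hi).symm
  rw [hq] at him
  exact Finset.mem_singleton.mp him

end Pool.Agent.Helper58.Scheme
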