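import Pool.Agent.Helper58.Scheme.Root

set_option autoImplicit false

namespace Pool.Agent.Helper58.Scheme

universe u

/-- alternating colours along the cycle, colour 3 at the root -/
def cc (s t : Fin 4) (j : ℕ) : Fin 4 := if j = 0 then 3 else if Odd j then s else t

theorem cc_zero (s t : Fin 4) : cc s t 0 = 3 := by simp [cc]

theorem cc_odd {s t : Fin 4} {j : ℕ} (h : Odd j) : cc s t j = s := by
  have : j ≠ 0 := by rintro rfl; simp at h
  simp [cc, this, h]

theorem cc_even {s t : Fin 4} {j : ℕ} (h0 : j ≠ 0) (h : ¬Odd j) : cc s t j = t := by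
  simp [cc, h0, h]

theorem cc_pos {s t : Fin 4} {j : ℕ} (h0 : j ≠ 0) : cc s t j = s ∨ cc s t j = t := by
  by_cases h : Odd j
  · exact Or.inl (cc_odd h)
  · exact Or.inr (cc_even h0 h)

theorem cc_cases (s t : Fin 4) (j : ℕ) : cc s t j = 3 ∨ cc s t j = s ∨ cc s t j = t := by
  by_cases h0 : j = 0
  · subst h0; exact Or.inl (cc_zero s t)
  · exact Or.inr (cc_pos h0)

theorem val_succ {n : ℕ} [NeZero n] (x : ZMod n) : (x + 1).val = (x.val + 1) % n := by
  rw [ZMod.val_add, ZMod.val_one_eq_one_mod, Nat.add_mod_mod]

theorem val_pred {n : ℕ} [NeZero n] (hn : 2 ≤ n) (x : ZMod n) :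
    (x.val = 0 ∧ (x - 1).val = n - 1) ∨ (x.val ≠ 0 ∧ (x - 1).val = x.val - 1) := by
  have h := val_succ (x - 1)
  rw [sub_add_cancel] at h
  have hlt := ZMod.val_lt (x - 1)
  by_cases hc : (x - 1).val + 1 < n
  · rw [Nat.mod_eq_of_lt hc] at h
    right; constructor <;> omega
  · have : (x - 1).val + 1 = n := by omega
    rw [this, Nat.mod_self] at h
    left; constructor <;> omega

theorem cc_step_ne {s t : Fin 4} (hst : s ≠ t) (hs : s ≠ 3) (ht : t ≠ 3) {n : ℕ} (hn : 2 ≤ n)
    {a : ℕ} (ha : a < n) : cc s t a ≠ cc s t ((a + 1) % n) := by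
  by_cases hc : a + 1 < n
  · rw [Nat.mod_eq_of_lt hc]
    by_cases h0 : a = 0
    · subst h0
      rw [cc_zero, cc_odd (by decide)]; exact hs.symm
    · by_cases hp : Odd a
      · have : ¬Odd (a + 1) := by
          intro h; rw [Nat.odd_add_one] at h; exact h hp
        rw [cc_odd hp, cc_even (by omega) this]; exact hst
      · have : Odd (a + 1) := by rw [Nat.odd_add_one]; exact hp
        rw [cc_even h0 hp, cc_odd this]; exact hst.symm
  · have h1 : a + 1 = n := by omega
    rw [h1, Nat.mod_self, cc_zero]
    rcases cc_pos (s := s) (t := t) (j := a) (by omega) with h | h <;> rw [h]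
    · exact hs
    · exact ht

section

variable {V : Type u} {G : SimpleGraph V}

/-- the colouring with root `r p` -/
noncomputable def colp {n : ℕ} (r : ZMod n → V) (B : V → Fin 4) (s t : Fin 4) (p : ZMod n) :
    V → Fin 4 := Function.extend r (fun k => cc s t (k - p).val) B

theorem colp_in {n : ℕ} {r : ZMod n → V} (hr : Function.Injective r) (B : V → Fin 4) (s t : Fin 4)
    (p k : ZMod n) : colp r B s t p (r k) = cc s t (k - p).val := by
  unfold colp; rw [hr.extend_apply]

theorem colp_out {n : ℕ} {r : ZMod n → V} (B : V → Fin 4) (s t : Fin 4)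
    (p : ZMod n) {x : V} (hx : x ∉ Set.range r) : colp r B s t p x = B x := by
  unfold colp; rw [Function.extend_apply']; exact hx

/-- the first version of the odd cycle -/
structure PreCyc (G : SimpleGraph V) (Q : V → Fin 4) (n : ℕ) (r : ZMod n → V) (α β γ : Fin 4) :
    Prop where
  cols : Cols α β γ
  odd : Odd n
  five : 5 ≤ n
  inj : Function.Injective r
  adj : ∀ i, G.Adj (r i) (r (i + 1))
  chord : ∀ i j, G.Adj (r i) (r j) → j = i + 1 ∨ j = i - 1
  col : ∀ i, Q (r i) = cc β γ i.val
  out : ∀ i x, G.Adj (r i) x → x ∉ Set.range r → Q x = α ∨ Q x = 3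

theorem exists_precyc [Fintype V] (hcf : ClawFree G) {Q : V → Fin 4} (hm : Mini G Q)
    {v u c u' d : V} (hv : Q v = 3) (hN : RootNbhd G Q v u c u' d) :
    ∃ α β γ n, ∃ r : ZMod n → V, PreCyc G Q n r α β γ := by
  classical
  obtain ⟨α, β, γ, hc, hu, hu', hcc, hd⟩ := hN.col
  have hub : ∀ x, G.Adj v x → Q x = β → x = c := by
    intro x hx h
    rcases hN.all x hx with rfl | rfl | rfl | rfl
    · exact absurd (hu.symm.trans h) hc.ab
    · exact absurd (hu'.symm.trans h) hc.ab
    · rfl
    · exact absurd (h.symm.trans hd) hc.bc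
  have hug : ∀ x, G.Adj v x → Q x = γ → x = d := by
    intro x hx h
    rcases hN.all x hx with rfl | rfl | rfl | rfl
    · exact absurd (hu.symm.trans h) hc.ac
    · exact absurd (hu'.symm.trans h) hc.ac
    · exact absurd (hcc.symm.trans h) hc.bc
    · rfl
  obtain ⟨p0, hp0⟩ : Linked G Q c d := hm.linked hv hc.b3 hc.c3 hc.bc hcc hd hub hug
  obtain ⟨p, hpath, hpc⟩ : ∃ p : G.Walk c d, p.IsPath ∧ ∀ z ∈ p.support, Q z = β ∨ Q z = γ := by
    refine ⟨p0.bypass, p0.bypass_isPath, fun z hz => ?_⟩
    have := hp0 z (SimpleGraph.Walk.support_bypass_subset_support _ hz)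
    rwa [hcc, hd] at this
  set ℓ := p.length with hℓ
  have hcol : ∀ k, k ≤ ℓ → Q (p.getVert k) = if Even k then β else γ := by
    intro k
    induction k with
    | zero => intro _; simp [hcc]
    | succ k ih =>
      intro hk
      have h1 := ih (by omega)
      have h2 : G.Adj (p.getVert k) (p.getVert (k + 1)) := p.adj_getVert_succ (by omega)
      have h3 := hm.1 _ _ h2
      have h4 := hpc _ (p.getVert_mem_support (k + 1))
      by_cases he : Even k
      · rw [if_pos he] at h1
        have : ¬Even (k + 1) := by rw [Nat.even_add_one]; simpa using he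
        rw [if_neg this]
        rcases h4 with h4 | h4
        · exact absurd (h1.trans h4.symm) h3
        · exact h4
      · rw [if_neg he] at h1
        have : Even (k + 1) := by rw [Nat.even_add_one]; exact he
        rw [if_pos this]
        rcases h4 with h4 | h4
        · exact h4
        · exact absurd (h1.trans h4.symm) h3
  have hend : p.getVert ℓ = d := by rw [hℓ]; exact p.getVert_length
  have hstart : p.getVert 0 = c := p.getVert_zero
  have hℓodd : Odd ℓ := by
    by_contra hne
    rw [Nat.not_odd_iff_even] at hne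
    have := hcol ℓ le_rfl
    rw [if_pos hne, hend, hd] at this
    exact hc.bc this.symm
  have hℓ1 : ℓ ≠ 1 := by
    intro h1
    have h2 : G.Adj (p.getVert 0) (p.getVert 1) := p.adj_getVert_succ (by omega)
    rw [hstart, ← h1, hend] at h2
    exact hN.ncd h2
  have hℓ3 : 3 ≤ ℓ := by
    obtain ⟨k, hk⟩ := hℓodd
    omega
  have hinj : ∀ i j, i ≤ ℓ → j ≤ ℓ → p.getVert i = p.getVert j → i = j := by
    intro i j hi hj h
    exact hpath.getVert_injOn hi hj h
  have : NeZero (ℓ + 2) := ⟨by omega⟩
  let R : ℕ → V := fun k => if k = 0 then v else p.getVert (k - 1)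
  let r : ZMod (ℓ + 2) → V := fun i => R i.val
  have hR0 : R 0 = v := by simp [R]
  have hRs : ∀ k, R (k + 1) = p.getVert k := by intro k; simp [R]
  have hRcol : ∀ k, k < ℓ + 2 → Q (R k) = cc β γ k := by
    intro k hk
    rcases k with _ | k
    · rw [hR0, hv, cc_zero]
    · rw [hRs, hcol k (by omega)]
      by_cases he : Even k
      · rw [if_pos he, cc_odd]
        exact Even.add_one he
      · rw [if_neg he, cc_even (by omega)]
        rw [Nat.odd_add_one]; simpa using he
  have hRinj : ∀ i j, i < ℓ + 2 → j < ℓ + 2 → R i = R j → i = j := by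
    intro i j hi hj h
    rcases i with _ | i <;> rcases j with _ | j
    · rfl
    · exfalso
      have h1 := hRcol (j + 1) hj
      rw [← h, hR0, hv] at h1
      rcases cc_pos (s := β) (t := γ) (j := j + 1) (by omega) with h2 | h2
      · rw [h2] at h1; exact hc.b3 h1.symm
      · rw [h2] at h1; exact hc.c3 h1.symm
    · exfalso
      have h1 := hRcol (i + 1) hi
      rw [h, hR0, hv] at h1
      rcases cc_pos (s := β) (t := γ) (j := i + 1) (by omega) with h2 | h2
      · rw [h2] at h1; exact hc.b3 h1.symm
      · rw [h2] at h1; exact hc.c3 h1.symm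
    · rw [hRs, hRs] at h
      have := hinj i j (by omega) (by omega) h
      omega
  have hrinj : Function.Injective r := by
    intro i j h
    exact ZMod.val_injective _ (hRinj _ _ (ZMod.val_lt i) (ZMod.val_lt j) h)
  have hr0 : r 0 = v := by simp only [r]; rw [ZMod.val_zero, hR0]
  have hrcol : ∀ i, Q (r i) = cc β γ i.val := fun i => hRcol _ (ZMod.val_lt i)
  have hradj : ∀ i, G.Adj (r i) (r (i + 1)) := by
    intro i
    have hi := ZMod.val_lt i
    simp only [r]
    rw [val_succ]
    by_cases hc1 : i.val + 1 < ℓ + 2
    · rw [Nat.mod_eq_of_lt hc1, hRs]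
      rcases hk : i.val with _ | k
      · rw [hR0, hstart]; exact hN.vc
      · rw [hRs]; exact p.adj_getVert_succ (by omega)
    · have h1 : i.val + 1 = ℓ + 2 := by omega
      have h2 : i.val = ℓ + 1 := by omega
      rw [h1, Nat.mod_self, hR0, h2, hRs, hend]
      exact hN.vd.symm
  have hr1 : r 1 = c := by
    have h1 : (1 : ZMod (ℓ + 2)).val = 1 := by
      rw [ZMod.val_one_eq_one_mod, Nat.mod_eq_of_lt (by omega)]
    simp only [r]; rw [h1]; exact (hRs 0).trans hstart
  have hrm1 : r (-1) = d := by
    have h := val_pred (n := ℓ + 2) (by omega) 0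
    rw [ZMod.val_zero, zero_sub] at h
    rcases h with h | h
    · simp only [r]
      rw [h.2]
      have : ℓ + 2 - 1 = ℓ + 1 := by omega
      rw [this, hRs, hend]
    · exact absurd rfl h.1
  -- neighbours of the cycle in the two colours
  have hnb : ∀ i x, G.Adj (r i) x → (Q x = β ∨ Q x = γ) → x = r (i + 1) ∨ x = r (i - 1) := by
    intro i x hx hxc
    by_cases hi0 : i = 0
    · subst hi0
      rw [hr0] at hx
      rcases hxc with h | h
      · left; rw [zero_add, hr1]; exact hub x hx h
      · right; rw [zero_sub, hrm1]; exact hug x hx h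
    · by_contra hcon
      push Not at hcon
      have hival : i.val ≠ 0 := fun h => hi0 ((ZMod.val_eq_zero i).mp h)
      have hilt := ZMod.val_lt i
      have ha1 := hradj i
      have ha2 : G.Adj (r i) (r (i - 1)) := by
        have := hradj (i - 1); rw [sub_add_cancel] at this; exact this.symm
      -- colours
      have hQi := hrcol i
      have hne : r (i + 1) ≠ r (i - 1) := by
        intro h
        have h1 := hrinj h
        have h2 : (2 : ZMod (ℓ + 2)) = 0 := by
          have : (i + 1) - (i - 1) = (0 : ZMod (ℓ + 2)) := by rw [h1]; ring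
          have h3 : (i + 1) - (i - 1) = (2 : ZMod (ℓ + 2)) := by ring
          rw [← h3]; exact this
        have h3 : ((2 : ℕ) : ZMod (ℓ + 2)) = 0 := by exact_mod_cast h2
        rw [ZMod.natCast_eq_zero_iff] at h3
        have := Nat.le_of_dvd (by omega) h3
        omega
      -- the opposite colour
      obtain ⟨e, he, hee, hopp⟩ : ∃ e, (e = β ∨ e = γ) ∧ Q (r i) ≠ e ∧
          ∀ y, G.Adj (r i) y → (Q y = β ∨ Q y = γ) → Q y = e := by
        rcases cc_pos (s := β) (t := γ) hival with h | h
        · refine ⟨γ, Or.inr rfl, by rw [hQi, h]; exact hc.bc, fun y hy hyc => ?_⟩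
          rcases hyc with h' | h'
          · exact absurd (by rw [hQi, h, h']) (hm.1 _ _ hy)
          · exact h'
        · refine ⟨β, Or.inl rfl, by rw [hQi, h]; exact hc.bc.symm, fun y hy hyc => ?_⟩
          rcases hyc with h' | h'
          · exact h'
          · exact absurd (by rw [hQi, h, h']) (hm.1 _ _ hy)
      have hQx := hopp x hx hxc
      -- v is adjacent to x only if ...
      have hvx : G.Adj v x → r i = c ∨ r i = d → False := by
        intro h1 h2
        rcases h2 with h2 | h2
        · -- r i = c, x has colour γ, so x = d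
          have : Q x = γ := by
            rcases hxc with h | h
            · exact absurd (by rw [h2, hcc, h]) (hm.1 _ _ hx)
            · exact h
          have hxd := hug x h1 this
          rw [h2, hxd] at hx
          exact hN.ncd hx
        · have : Q x = β := by
            rcases hxc with h | h
            · exact h
            · exact absurd (by rw [h2, hd, h]) (hm.1 _ _ hx)
          have hxd := hub x h1 this
          rw [h2, hxd] at hx
          exact hN.ncd hx.symm
      have hcolor : ∀ j, j ≠ 0 → Q (r j) = β ∨ Q (r j) = γ := by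
        intro j hj
        rw [hrcol]
        exact cc_pos (fun h => hj ((ZMod.val_eq_zero j).mp h))
      rcases hcf (r i) (r (i + 1)) (r (i - 1)) x ha1 ha2 hx hne hcon.1.symm hcon.2.symm with
        h | h | h
      · -- r (i+1) adjacent to r (i-1)
        by_cases hj1 : i + 1 = 0
        · -- r (i+1) = v, i = -1, r i = d, r (i-1) has colour β, so it is c
          have hi : i = -1 := eq_neg_of_add_eq_zero_left hj1
          have hid : r i = d := by rw [hi, hrm1]
          rw [hj1, hr0] at h
          have hi2 : i - 1 ≠ 0 := by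
            intro h2
            have h3 : i + 1 = i - 1 := by rw [hj1, h2]
            exact hne (by rw [h3])
          have h4 := hcolor _ hi2
          have h5 : Q (r (i - 1)) = β := by
            rcases h4 with h4 | h4
            · exact h4
            · exact absurd (by rw [hid, hd, h4]) (hm.1 _ _ ha2)
          have h6 := hub _ h h5
          rw [h6, hid] at ha2
          exact hN.ncd ha2.symm
        · by_cases hj2 : i - 1 = 0
          · have hi : i = 1 := sub_eq_zero.mp hj2
            have hid : r i = c := by rw [hi, hr1]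
            rw [hj2, hr0] at h
            have h4 := hcolor _ hj1
            have h5 : Q (r (i + 1)) = γ := by
              rcases h4 with h4 | h4
              · exact absurd (by rw [hid, hcc, h4]) (hm.1 _ _ ha1)
              · exact h4
            have h6 := hug _ h.symm h5
            rw [h6, hid] at ha1
            exact hN.ncd ha1
          · exact hm.1 _ _ h ((hopp _ ha1 (hcolor _ hj1)).trans (hopp _ ha2 (hcolor _ hj2)).symm)
      · by_cases hj1 : i + 1 = 0
        · have hi : i = -1 := eq_neg_of_add_eq_zero_left hj1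
          have hid : r i = d := by rw [hi, hrm1]
          rw [hj1, hr0] at h
          exact hvx h (Or.inr hid)
        · exact hm.1 _ _ h ((hopp _ ha1 (hcolor _ hj1)).trans hQx.symm)
      · by_cases hj2 : i - 1 = 0
        · have hi : i = 1 := sub_eq_zero.mp hj2
          have hid : r i = c := by rw [hi, hr1]
          rw [hj2, hr0] at h
          exact hvx h (Or.inl hid)
        · exact hm.1 _ _ h ((hopp _ ha2 (hcolor _ hj2)).trans hQx.symm)
  refine ⟨α, β, γ, ℓ + 2, r, hc, ?_, by omega, hrinj, hradj, ?_, hrcol, ?_⟩
  · obtain ⟨k, hk⟩ := hℓodd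
    exact ⟨k + 1, by omega⟩
  · intro i j hij
    by_cases hj : j = 0
    · subst hj
      by_cases hi : i = 0
      · subst hi; exact absurd hij (G.loopless.irrefl _)
      · have h1 : Q (r i) = β ∨ Q (r i) = γ := by
          rw [hrcol]; exact cc_pos (fun h => hi ((ZMod.val_eq_zero i).mp h))
        rcases hnb 0 (r i) hij.symm h1 with h | h
        · right
          have := hrinj h
          rw [this]; ring
        · left
          have := hrinj h
          rw [this]; ring
    · have h1 : Q (r j) = β ∨ Q (r j) = γ := by
        rw [hrcol]; exact cc_pos (fun h => hj ((ZMod.val_eq_zero j).mp h))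
      rcases hnb i (r j) hij h1 with h | h
      · exact Or.inl (hrinj h)
      · exact Or.inr (hrinj h)
  · intro i x hx hxr
    rcases hc.exh (Q x) with h | h | h | h
    · exact Or.inl h
    · exfalso
      rcases hnb i x hx (Or.inl h) with h' | h'
      · exact hxr ⟨_, h'.symm⟩
      · exact hxr ⟨_, h'.symm⟩
    · exfalso
      rcases hnb i x hx (Or.inr h) with h' | h'
      · exact hxr ⟨_, h'.symm⟩
      · exact hxr ⟨_, h'.symm⟩
    · exact Or.inr h

end

end Pool.Agent.Helper58.Scheme
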