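import Mathlib

set_option autoImplicit false

namespace Pool.Agent.Helper58.Scheme

universe u

/-- A chromatic 4-scheme of a graph `G`: a proper 4-colouring `Q`, four distinct basis vertices
`v 0, v 1, v 2, v 3` of pairwise distinct colours and, for all `i < j`, a path `link i j` of `G`
from `v i` to `v j` all of whose vertices have the colour of `v i` or the colour of `v j`, such that
the paths of two disjoint index pairs have no common vertex. -/
structure ChromaticFourScheme {V : Type u} (G : SimpleGraph V) where
  /-- the proper 4-colouring -/
  Q : G.Coloring (Fin 4)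
  /-- the basis -/
  v : Fin 4 → V
  v_injective : Function.Injective v
  /-- the links, as walks of `G` -/
  link : ∀ i j : Fin 4, i < j → G.Walk (v i) (v j)
  link_isPath : ∀ (i j : Fin 4) (h : i < j), (link i j h).IsPath
  link_disjoint : ∀ (i j k l : Fin 4) (hij : i < j) (hkl : k < l), i ≠ k → i ≠ l → j ≠ k → j ≠ l →
    ∀ x, x ∈ (link i j hij).support → x ∉ (link k l hkl).support
  colours_distinct : ∀ i j : Fin 4, i ≠ j → Q (v i) ≠ Q (v j)
  link_bicoloured : ∀ (i j : Fin 4) (h : i < j), ∀ x ∈ (link i j h).support,
    Q x = Q (v i) ∨ Q x = Q (v j)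

/-- A graph is claw-free if among any three distinct neighbours of a vertex two are adjacent. -/
def ClawFree {V : Type u} (G : SimpleGraph V) : Prop :=
  ∀ x a b c : V, G.Adj x a → G.Adj x b → G.Adj x c → a ≠ b → a ≠ c → b ≠ c →
    G.Adj a b ∨ G.Adj a c ∨ G.Adj b c

/-- `ReducesToClawFree G S`: the induced subgraph `G[S]` can be turned into a claw-free graph by
deleting vertices one after the other, where each deleted vertex has, in the current graph, at most
three neighbours or a neighbourhood contained in the neighbourhood of another vertex. -/
inductive ReducesToClawFree {V : Type u} (G : SimpleGraph V) : Set V → Prop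
  | clawFree (S : Set V) : ClawFree (G.induce S) → ReducesToClawFree G S
  | lowDegree (S : Set V) (x : V) : x ∈ S → {z | z ∈ S ∧ G.Adj x z}.ncard ≤ 3 →
      ReducesToClawFree G (S \ {x}) → ReducesToClawFree G S
  | dominated (S : Set V) (x y : V) : x ∈ S → y ∈ S → x ≠ y →
      (∀ z ∈ S, G.Adj x z → G.Adj y z) → ReducesToClawFree G (S \ {x}) → ReducesToClawFree G S

end Pool.Agent.Helper58.Scheme
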