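import Pool.Agent.Helper58.Scheme.Out
import Pool.Agent.Helper58.Scheme.Count

set_option autoImplicit false

namespace Pool.Agent.Helper58.Scheme

universe u

variable {V : Type u} {G : SimpleGraph V} {Q : V → Fin 4} {n : ℕ} {r : ZMod n → V}
  {α β γ : Fin 4}

theorem colp_cases (P : PreCyc G Q n r α β γ) (p j : ZMod n) :
    colp r Q β γ p (r j) = 3 ∨ colp r Q β γ p (r j) = β ∨ colp r Q β γ p (r j) = γ := by
  rw [colp_in P.inj]; exact cc_cases _ _ _

theorem colp_ne_alpha (P : PreCyc G Q n r α β γ) (p j : ZMod n) :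
    colp r Q β γ p (r j) ≠ α := by
  rcases colp_cases P p j with h | h | h <;> rw [h]
  · exact P.cols.a3.symm
  · exact P.cols.ab.symm
  · exact P.cols.ac.symm

theorem colp_proper (P : PreCyc G Q n r α β γ) (hQ : Proper G Q)
    (hout : ∀ i x, G.Adj (r i) x → x ∉ Set.range r → Q x = α) (p : ZMod n) :
    Proper G (colp r Q β γ p) := by
  intro a b hab
  by_cases har : a ∈ Set.range r <;> by_cases hbr : b ∈ Set.range r
  · obtain ⟨j, rfl⟩ := har
    obtain ⟨k, rfl⟩ := hbr
    exact colp_in_ne P P.cols.bc P.cols.b3 P.cols.c3 Q p hab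
  · obtain ⟨j, rfl⟩ := har
    rw [colp_out Q β γ p hbr, hout j b hab hbr]
    exact colp_ne_alpha P p j
  · obtain ⟨j, rfl⟩ := hbr
    rw [colp_out Q β γ p har, hout j a hab.symm har]
    exact (colp_ne_alpha P p j).symm
  · rw [colp_out Q β γ p har, colp_out Q β γ p hbr]; exact hQ _ _ hab

theorem colp_mini [Fintype V] (P : PreCyc G Q n r α β γ) (hm : Mini G Q)
    (hout : ∀ i x, G.Adj (r i) x → x ∉ Set.range r → Q x = α) (p : ZMod n) :
    Mini G (colp r Q β γ p) := by
  classical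
  refine ⟨colp_proper P hm.1 hout p, fun Q' hQ' => le_trans ?_ (hm.2 Q' hQ')⟩
  have hsub : three (colp r Q β γ p) ⊆ insert (r p) ((three Q).erase (r 0)) := by
    intro z hz
    rw [mem_three] at hz
    rw [Finset.mem_insert, Finset.mem_erase, mem_three]
    by_cases hzr : z ∈ Set.range r
    · obtain ⟨j, rfl⟩ := hzr
      left
      rw [colp_eq_three P P.cols.b3 P.cols.c3 Q p hz]
    · right
      rw [colp_out Q β γ p hzr] at hz
      exact ⟨fun e => hzr ⟨0, e.symm⟩, hz⟩
  have h1 := Finset.card_le_card hsub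
  have h2 := Finset.card_insert_le (r p) ((three Q).erase (r 0))
  have h3 := Finset.card_erase_add_one (s := three Q) (mem_three.mpr P.col_zero)
  omega

theorem colp_root (P : PreCyc G Q n r α β γ) (p : ZMod n) : colp r Q β γ p (r p) = 3 := by
  rw [colp_in P.inj, sub_self, ZMod.val_zero, cc_zero]

theorem colp_next (P : PreCyc G Q n r α β γ) (p : ZMod n) :
    colp r Q β γ p (r (p + 1)) = β := by
  have := P.five
  rw [colp_in P.inj]
  have h1 : p + 1 - p = 1 := by ring
  have h2 : (1 : ZMod n).val = 1 := by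
    rw [ZMod.val_one_eq_one_mod, Nat.mod_eq_of_lt (by omega)]
  rw [h1, h2, cc_odd (by decide)]

theorem PreCyc.val_neg_one (P : PreCyc G Q n r α β γ) : (-1 : ZMod n).val = n - 1 := by
  have := P.neZero
  have h5 := P.five
  have h := val_pred (n := n) (by omega) 0
  rw [ZMod.val_zero, zero_sub] at h
  rcases h with h | h
  · exact h.2
  · exact absurd rfl h.1

theorem colp_prev (P : PreCyc G Q n r α β γ) (p : ZMod n) :
    colp r Q β γ p (r (p - 1)) = γ := by
  have h5 := P.five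
  rw [colp_in P.inj]
  have h1 : p - 1 - p = -1 := by ring
  rw [h1, P.val_neg_one]
  apply cc_even (by omega)
  intro h
  obtain ⟨k, hk⟩ := P.odd
  obtain ⟨m, hm⟩ := h
  omega

/-- the neighbourhood of a cycle vertex -/
theorem cyc_nbhd [Fintype V] (hcf : ClawFree G) (hm : Mini G Q)
    (hbad : ∀ Q', Proper G Q' → ¬Good G Q') (P : PreCyc G Q n r α β γ)
    (hout : ∀ i x, G.Adj (r i) x → x ∉ Set.range r → Q x = α) (p : ZMod n) :
    ∃ h g, G.Adj (r p) h ∧ G.Adj (r p) g ∧ h ∉ Set.range r ∧ g ∉ Set.range r ∧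
      G.Adj h (r (p + 1)) ∧ G.Adj g (r (p - 1)) ∧ ¬G.Adj h (r (p - 1)) ∧ ¬G.Adj g (r (p + 1)) ∧
      h ≠ g ∧ ∀ x, G.Adj (r p) x → x = r (p + 1) ∨ x = r (p - 1) ∨ x = h ∨ x = g := by
  have hm' := colp_mini P hm hout p
  have hroot := colp_root P p
  have hnext := colp_next P p
  have hprev := colp_prev P p
  obtain ⟨a, b, a', b', hN⟩ := root_nbhd hcf hm' hbad hroot
  obtain ⟨α', β', γ', hc', qa, qa', qb, qb'⟩ := hN.col
  have hcyc : ∀ x, G.Adj (r p) x → x ∈ Set.range r → x = r (p + 1) ∨ x = r (p - 1) := by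
    rintro x hx ⟨j, rfl⟩
    rcases P.chord p j hx with rfl | rfl
    · exact Or.inl rfl
    · exact Or.inr rfl
  have houtc : ∀ x, G.Adj (r p) x → x ∉ Set.range r → colp r Q β γ p x = α := by
    intro x hx hxr
    rw [colp_out Q β γ p hxr]; exact hout p x hx hxr
  have hbc := P.cols.bc
  -- a and a' are not on the cycle
  have key : ∀ y y', G.Adj (r p) y → G.Adj (r p) y' → y ≠ y' →
      colp r Q β γ p y = colp r Q β γ p y' → y ∉ Set.range r := by
    intro y y' hy hy' hne heq hyr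
    rcases hcyc y hy hyr with h | h
    · by_cases hy'r : y' ∈ Set.range r
      · rcases hcyc y' hy' hy'r with h' | h'
        · exact hne (h.trans h'.symm)
        · rw [h, h', hnext, hprev] at heq; exact hbc heq
      · rw [h, hnext, houtc y' hy' hy'r] at heq
        exact P.cols.ab heq.symm
    · by_cases hy'r : y' ∈ Set.range r
      · rcases hcyc y' hy' hy'r with h' | h'
        · rw [h, h', hnext, hprev] at heq; exact hbc heq.symm
        · exact hne (h.trans h'.symm)
      · rw [h, hprev, houtc y' hy' hy'r] at heq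
        exact P.cols.ac heq.symm
  have har : a ∉ Set.range r := key a a' hN.vu hN.vu' hN.ne (qa.trans qa'.symm)
  have ha'r : a' ∉ Set.range r := key a' a hN.vu' hN.vu hN.ne.symm (qa'.trans qa.symm)
  have hne := P.pm_ne p
  rcases hN.all _ (P.adj p) with h1 | h1 | h1 | h1
  · exact absurd ⟨_, h1⟩ har
  · exact absurd ⟨_, h1⟩ ha'r
  · rcases hN.all _ (P.adj' p) with h2 | h2 | h2 | h2
    · exact absurd ⟨_, h2⟩ har
    · exact absurd ⟨_, h2⟩ ha'r
    · exact absurd (h1.trans h2.symm) hne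
    · refine ⟨a, a', hN.vu, hN.vu', har, ha'r, ?_, ?_, ?_, ?_, hN.ne, ?_⟩
      · rw [h1]; exact hN.uc
      · rw [h2]; exact hN.u'd
      · rw [h2]; exact hN.nud
      · rw [h1]; exact hN.nu'c
      · intro x hx
        rcases hN.all x hx with h | h | h | h <;> simp [h, h1, h2]
  · rcases hN.all _ (P.adj' p) with h2 | h2 | h2 | h2
    · exact absurd ⟨_, h2⟩ har
    · exact absurd ⟨_, h2⟩ ha'r
    · refine ⟨a', a, hN.vu', hN.vu, ha'r, har, ?_, ?_, ?_, ?_, hN.ne.symm, ?_⟩
      · rw [h1]; exact hN.u'd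
      · rw [h2]; exact hN.uc
      · rw [h2]; exact hN.nu'c
      · rw [h1]; exact hN.nud
      · intro x hx
        rcases hN.all x hx with h | h | h | h <;> simp [h, h1, h2]
    · exact absurd (h1.trans h2.symm) hne

/-- the common neighbours of consecutive cycle vertices -/
theorem exists_g [Fintype V] (hcf : ClawFree G) (hm : Mini G Q)
    (hbad : ∀ Q', Proper G Q' → ¬Good G Q') (P : PreCyc G Q n r α β γ)
    (hout : ∀ i x, G.Adj (r i) x → x ∉ Set.range r → Q x = α) :
    ∃ g : ZMod n → V, (∀ i, G.Adj (r i) (g i)) ∧ (∀ i, G.Adj (r i) (g (i + 1))) ∧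
      (∀ i, g i ∉ Set.range r) ∧ (∀ i, g i ≠ g (i + 1)) ∧
      ∀ i x, G.Adj (r i) x → x = r (i + 1) ∨ x = r (i - 1) ∨ x = g i ∨ x = g (i + 1) := by
  choose h g h1 h2 h3 h4 h5 h6 h7 h8 h9 h10 using cyc_nbhd hcf hm hbad P hout
  have key : ∀ p, h p = g (p + 1) := by
    intro p
    rcases h10 (p + 1) (h p) (h5 p).symm with e | e | e | e
    · exact absurd ⟨_, e.symm⟩ (h3 p)
    · exact absurd ⟨_, e.symm⟩ (h3 p)
    · exfalso
      apply h7 (p + 1)
      rw [← e, add_sub_cancel_right]; exact (h1 p).symm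
    · exact e
  refine ⟨g, h2, ?_, h4, ?_, ?_⟩
  · intro i; rw [← key]; exact h1 i
  · intro i e; exact h9 i ((key i).trans e.symm)
  · intro i x hx
    rw [← key]
    rcases h10 i x hx with e | e | e | e
    · exact Or.inl e
    · exact Or.inr (Or.inl e)
    · exact Or.inr (Or.inr (Or.inr e))
    · exact Or.inr (Or.inr (Or.inl e))

/-- the bicoloured graph outside the cycle -/
def KG (G : SimpleGraph V) (Q : V → Fin 4) {n : ℕ} (r : ZMod n → V) (α γ : Fin 4) :
    SimpleGraph V where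
  Adj x y := G.Adj x y ∧ (x ∉ Set.range r ∧ (Q x = α ∨ Q x = γ)) ∧
    (y ∉ Set.range r ∧ (Q y = α ∨ Q y = γ))
  symm := ⟨fun _ _ h => ⟨h.1.symm, h.2.2, h.2.1⟩⟩
  loopless := ⟨fun _ h => G.loopless.irrefl _ h.1⟩

theorem claw_le_two (hcf : ClawFree G) (hQ : Proper G Q) (x : V) (c : Fin 4) (S : Finset V)
    (hS : ∀ y ∈ S, G.Adj x y ∧ Q y = c) : S.card ≤ 2 := by
  by_contra hcon
  push Not at hcon
  obtain ⟨a, ha, b, hb, d, hd, hab, had, hbd⟩ := Finset.two_lt_card.mp hcon
  rcases hcf x a b d (hS a ha).1 (hS b hb).1 (hS d hd).1 hab had hbd with h | h | h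
  · exact hQ _ _ h ((hS a ha).2.trans (hS b hb).2.symm)
  · exact hQ _ _ h ((hS a ha).2.trans (hS d hd).2.symm)
  · exact hQ _ _ h ((hS b hb).2.trans (hS d hd).2.symm)

end Pool.Agent.Helper58.Scheme
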