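import Pool.Agent.Helper58.Scheme.Basic

set_option autoImplicit false

namespace Pool.Agent.Helper58.Scheme

universe u

variable {V : Type u} [Fintype V] {G : SimpleGraph V}

open Classical in
/-- the vertices of colour 3 -/
noncomputable def three (Q : V → Fin 4) : Finset V := Finset.univ.filter (fun x => Q x = 3)

theorem mem_three {Q : V → Fin 4} {x : V} : x ∈ three Q ↔ Q x = 3 := by simp [three]

/-- proper colouring with the fewest vertices of colour 3 -/
def Mini (G : SimpleGraph V) (Q : V → Fin 4) : Prop :=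
  Proper G Q ∧ ∀ Q', Proper G Q' → (three Q).card ≤ (three Q').card

theorem exists_mini (h : ∃ Q, Proper G Q) : ∃ Q, Mini G Q := by
  classical
  obtain ⟨Q0, hQ0⟩ := h
  obtain ⟨Q, hQ, hmin⟩ := WellFounded.has_min
    (InvImage.wf (fun Q : V → Fin 4 => (three Q).card) Nat.lt_wfRel.wf) {Q | Proper G Q} ⟨Q0, hQ0⟩
  exact ⟨Q, hQ, fun Q' hQ' => not_lt.mp (fun h => hmin Q' hQ' h)⟩

theorem Mini.of_three_eq {Q Q' : V → Fin 4} (h : Mini G Q) (hQ' : Proper G Q')
    (h3 : ∀ x, Q' x = 3 ↔ Q x = 3) : Mini G Q' := by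
  refine ⟨hQ', fun Q'' hQ'' => ?_⟩
  have : three Q' = three Q := by ext x; rw [mem_three, mem_three, h3]
  rw [this]; exact h.2 Q'' hQ''

theorem Mini.flip {Q : V → Fin 4} (h : Mini G Q) {i j : Fin 4} {W : Set V} (hi : i ≠ 3)
    (hj : j ≠ 3) (hW : Closed G Q i j W) : Mini G (flip Q i j W) :=
  h.of_three_eq (flip_proper h.1 hW) (fun x => flip_eq_three hi hj hW.1 x)

/-- in a minimal colouring a vertex of colour 3 sees all other colours -/
theorem Mini.sees {Q : V → Fin 4} (h : Mini G Q) {v : V} (hv : Q v = 3) {i : Fin 4} (hi : i ≠ 3) :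
    ∃ x, G.Adj v x ∧ Q x = i := by
  classical
  by_contra hcon
  push Not at hcon
  have hprop : Proper G (Function.update Q v i) := by
    intro x y hxy
    by_cases hx : x = v
    · subst hx
      have hy : y ≠ x := fun e => G.loopless.irrefl x (by rw [e] at hxy; exact hxy)
      rw [Function.update_self, Function.update_of_ne hy]
      exact (hcon y hxy).symm
    · by_cases hy : y = v
      · subst hy
        rw [Function.update_self, Function.update_of_ne hx]
        exact hcon x hxy.symm
      · rw [Function.update_of_ne hx, Function.update_of_ne hy]; exact h.1 x y hxy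
  have hlt : (three (Function.update Q v i)).card < (three Q).card := by
    apply Finset.card_lt_card
    rw [Finset.ssubset_iff_of_subset]
    · refine ⟨v, mem_three.mpr hv, ?_⟩
      rw [mem_three, Function.update_self]; exact hi
    · intro x hx
      rw [mem_three] at hx ⊢
      by_cases hxv : x = v
      · subst hxv; exact hv
      · rwa [Function.update_of_ne hxv] at hx
  exact absurd (h.2 _ hprop) (not_le.mpr hlt)

/-- irreducibility -/
theorem Mini.irr {Q : V → Fin 4} (h : Mini G Q) {v : V} (hv : Q v = 3) {i j : Fin 4} (hi : i ≠ 3)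
    (hj : j ≠ 3) (hij : i ≠ j) {W : Set V} (hW : Closed G Q i j W)
    (h1 : ∀ x, G.Adj v x → Q x = i → x ∈ W) (h2 : ∀ x, G.Adj v x → Q x = j → x ∉ W) : False := by
  have hm := h.flip hi hj hW
  have hv' : Scheme.flip Q i j W v = 3 := (flip_eq_three hi hj hW.1 v).mpr hv
  obtain ⟨x, hx, hxi⟩ := hm.sees hv' hi
  by_cases hxW : x ∈ W
  · rw [flip_of_mem hxW] at hxi
    rcases hW.1 x hxW with hc | hc
    · rw [hc, Equiv.swap_apply_left] at hxi; exact hij hxi.symm
    · exact h2 x hx hc hxW
  · rw [flip_of_notMem hxW] at hxi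
    exact hxW (h1 x hx hxi)

theorem Mini.linked {Q : V → Fin 4} (h : Mini G Q) {v a b : V} (hv : Q v = 3) {i j : Fin 4}
    (hi : i ≠ 3) (hj : j ≠ 3) (hij : i ≠ j) (ha : Q a = i) (hb : Q b = j)
    (h1 : ∀ x, G.Adj v x → Q x = i → x = a) (h2 : ∀ x, G.Adj v x → Q x = j → x = b) :
    Linked G Q a b := by
  by_contra hcon
  refine h.irr hv hi hj hij (comp_closed Q i j a) ?_ ?_
  · intro x hx hxi
    rw [h1 x hx hxi]
    exact self_mem_comp (Or.inl ha)
  · intro x hx hxj hmem
    rw [h2 x hx hxj] at hmem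
    exact hcon (linked_of_mem_comp ha hb hmem)

end Pool.Agent.Helper58.Scheme
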