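import Pool.Agent.Helper58.Scheme.Final

set_option autoImplicit false

namespace Pool.Agent.Helper58.Scheme

universe u

variable {V : Type u} {G : SimpleGraph V} {Q : V → Fin 4} {n : ℕ} {r : ZMod n → V}
  {α β γ : Fin 4}

open Classical in
theorem deg_bound [Fintype V] (hcf : ClawFree G) (hm : Mini G Q) (P : PreCyc G Q n r α β γ)
    (hout : ∀ i x, G.Adj (r i) x → x ∉ Set.range r → Q x = α) (hn0 : NeZero n)
    {g : ZMod n → V} (g1 : ∀ i, G.Adj (r i) (g i)) (g2 : ∀ i, G.Adj (r i) (g (i + 1)))
    (g3 : ∀ i, g i ∉ Set.range r) (g4 : ∀ i, g i ≠ g (i + 1)) (x : V) :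
    (KG G Q r α γ).degree x + (Finset.univ.filter (fun i => g i = x)).card ≤ 2 := by
  rw [← SimpleGraph.card_neighborFinset_eq_degree]
  by_cases hex : ∃ i, g i = x
  · obtain ⟨i0, hi0⟩ := hex
    have hxα : Q x = α := by rw [← hi0]; exact hout i0 _ (g1 i0) (g3 i0)
    obtain ⟨j, hj⟩ : ∃ j, g j ≠ x := by
      by_cases h0 : g 0 = x
      · exact ⟨0 + 1, fun h => g4 0 (h0.trans h.symm)⟩
      · exact ⟨0, h0⟩
    set p : ZMod n := j - 1 with hp
    have hpj : p + 1 = j := by rw [hp]; ring
    have hprop := colp_proper P hm.1 hout p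
    let ρ : ZMod n → V := fun i => if Even (i - 1 - p).val then r (i - 1) else r i
    let I := Finset.univ.filter (fun i => g i = x)
    have hI : ∀ i ∈ I, g i = x := fun i hi => (Finset.mem_filter.mp hi).2
    have hρr : ∀ i, ρ i ∈ Set.range r := by
      intro i
      by_cases h : Even (i - 1 - p).val
      · exact ⟨i - 1, by simp [ρ, h]⟩
      · exact ⟨i, by simp [ρ, h]⟩
    have hρ : ∀ i ∈ I, G.Adj x (ρ i) ∧ colp r Q β γ p (ρ i) = γ := by
      intro i hi
      have hgi := hI i hi
      have hij : i ≠ j := by rintro rfl; exact hj hgi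
      have h0 : (i - 1 - p).val ≠ 0 := by
        intro h
        rw [ZMod.val_eq_zero] at h
        apply hij
        rw [← hpj]
        have : i = (i - 1 - p) + (p + 1) := by ring
        rw [this, h, zero_add]
      by_cases h : Even (i - 1 - p).val
      · have e : ρ i = r (i - 1) := by simp [ρ, h]
        rw [e]
        constructor
        · have := g2 (i - 1)
          rw [sub_add_cancel, hgi] at this
          exact this.symm
        · rw [colp_in P.inj]
          exact cc_even h0 (Nat.not_odd_iff_even.mpr h)
      · have e : ρ i = r i := by simp [ρ, h]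
        rw [e]
        constructor
        · rw [← hgi]; exact (g1 i).symm
        · rw [colp_in P.inj]
          have h1 : i - p = (i - 1 - p) + 1 := by ring
          have hlt := ZMod.val_lt (i - 1 - p)
          rw [h1, val_succ]
          rw [Nat.not_even_iff_odd] at h
          have h2 : (i - 1 - p).val + 1 < n := by
            obtain ⟨k, hk⟩ := h
            obtain ⟨m, hm'⟩ := P.odd
            omega
          rw [Nat.mod_eq_of_lt h2]
          apply cc_even (by omega)
          intro h3
          obtain ⟨k, hk⟩ := h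
          obtain ⟨m, hm'⟩ := h3
          omega
    have hinj : Set.InjOn ρ (I : Set (ZMod n)) := by
      intro i hi i' hi' heq
      have hgi := hI i hi
      have hgi' := hI i' hi'
      by_cases h : Even (i - 1 - p).val <;> by_cases h' : Even (i' - 1 - p).val
      · have e : ρ i = r (i - 1) := by simp [ρ, h]
        have e' : ρ i' = r (i' - 1) := by simp [ρ, h']
        rw [e, e'] at heq
        exact sub_left_injective (P.inj heq)
      · have e : ρ i = r (i - 1) := by simp [ρ, h]
        have e' : ρ i' = r i' := by simp [ρ, h']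
        rw [e, e'] at heq
        have h1 : i - 1 = i' := P.inj heq
        exfalso
        apply g4 i'
        have h2 : i' + 1 = i := by rw [← h1]; ring
        rw [h2, hgi, hgi']
      · have e : ρ i = r i := by simp [ρ, h]
        have e' : ρ i' = r (i' - 1) := by simp [ρ, h']
        rw [e, e'] at heq
        have h1 : i = i' - 1 := P.inj heq
        exfalso
        apply g4 i
        have h2 : i + 1 = i' := by rw [h1]; ring
        rw [h2, hgi, hgi']
      · have e : ρ i = r i := by simp [ρ, h]
        have e' : ρ i' = r i' := by simp [ρ, h']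
        rw [e, e'] at heq
        exact P.inj heq
    have hdisj : Disjoint ((KG G Q r α γ).neighborFinset x) (I.image ρ) := by
      rw [Finset.disjoint_left]
      intro y hy hy'
      rw [SimpleGraph.mem_neighborFinset] at hy
      obtain ⟨i, _, rfl⟩ := Finset.mem_image.mp hy'
      exact hy.2.2.1 (hρr i)
    have hcard : (((KG G Q r α γ).neighborFinset x) ∪ (I.image ρ)).card ≤ 2 := by
      apply claw_le_two hcf hprop x γ
      intro y hy
      rcases Finset.mem_union.mp hy with hy | hy
      · rw [SimpleGraph.mem_neighborFinset] at hy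
        refine ⟨hy.1, ?_⟩
        rw [colp_out Q β γ p hy.2.2.1]
        rcases hy.2.2.2 with h | h
        · exact absurd (hxα.trans h.symm) (hm.1 _ _ hy.1)
        · exact h
      · obtain ⟨i, hi, rfl⟩ := Finset.mem_image.mp hy
        exact hρ i hi
    rw [Finset.card_union_of_disjoint hdisj, Finset.card_image_of_injOn hinj] at hcard
    exact hcard
  · have h0 : (Finset.univ.filter (fun i => g i = x)) = ∅ := by
      rw [Finset.filter_eq_empty_iff]
      intro i _ h
      exact hex ⟨i, h⟩
    rw [h0, Finset.card_empty, add_zero]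
    apply claw_le_two hcf hm.1 x (if Q x = α then γ else α)
    intro y hy
    rw [SimpleGraph.mem_neighborFinset] at hy
    refine ⟨hy.1, ?_⟩
    have hne := hm.1 _ _ hy.1
    rcases hy.2.1.2 with h | h <;> rcases hy.2.2.2 with h' | h'
    · exact absurd (h.trans h'.symm) hne
    · rw [if_pos h, h']
    · have : Q x ≠ α := by rw [h]; exact P.cols.ac.symm
      rw [if_neg this, h']
    · exact absurd (h.trans h'.symm) hne

theorem cyc_walk (P : PreCyc G Q n r α β γ) (p : ZMod n) (m : ℕ) (hm1 : 1 ≤ m) :
    ∃ w : G.Walk (r (p + 1)) (r (p + (m : ZMod n))),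
      ∀ z ∈ w.support, ∃ j : ℕ, 1 ≤ j ∧ j ≤ m ∧ z = r (p + (j : ZMod n)) := by
  induction m, hm1 using Nat.le_induction with
  | base =>
    have h1 : r (p + ((1 : ℕ) : ZMod n)) = r (p + 1) := by rw [Nat.cast_one]
    rw [h1]
    refine ⟨SimpleGraph.Walk.nil, fun z hz => ⟨1, le_rfl, le_rfl, ?_⟩⟩
    rw [h1]
    simpa using hz
  | succ m hm1 ih =>
    obtain ⟨w, hw⟩ := ih
    have hadj : G.Adj (r (p + (m : ZMod n))) (r (p + ((m + 1 : ℕ) : ZMod n))) := by
      have := P.adj (p + (m : ZMod n))
      rw [add_assoc] at this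
      rw [Nat.cast_add, Nat.cast_one]
      exact this
    refine ⟨w.concat hadj, fun z hz => ?_⟩
    rw [SimpleGraph.Walk.support_concat, List.mem_append] at hz
    rcases hz with hz | hz
    · obtain ⟨j, h1, h2, h3⟩ := hw z hz
      exact ⟨j, h1, by omega, h3⟩
    · rw [List.mem_singleton] at hz
      exact ⟨m + 1, by omega, le_rfl, hz⟩

theorem walk_induct {K : SimpleGraph V} {S : V → Prop} (h : ∀ x y, K.Adj x y → S y) {a b : V}
    (w : K.Walk a b) (ha : S a) : S b := by
  induction w with
  | nil => exact ha
  | cons hadj _ ih => exact ih (h _ _ hadj)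

theorem final [Fintype V] (hcf : ClawFree G) (hm : Mini G Q)
    (hbad : ∀ Q', Proper G Q' → ¬Good G Q') (P : PreCyc G Q n r α β γ) : False := by
  classical
  have hn5 := P.five
  have hn0 := P.neZero
  have hout := P.out_alpha hcf hm hbad
  obtain ⟨g, g1, g2, g3, g4, g5⟩ := exists_g hcf hm hbad P hout
  obtain ⟨q, hq⟩ := exists_single (KG G Q r α γ) P.odd g (fun x => by
    have := deg_bound hcf hm P hout hn0 g1 g2 g3 g4 x
    convert this)
  obtain ⟨p, rfl⟩ : ∃ p, q = p + 1 := ⟨q - 1, by ring⟩
  let W : Set V := {x | (KG G Q r α γ).Reachable (g (p + 1)) x}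
  have hgα : ∀ i, Q (g i) = α := fun i => hout i _ (g1 i) (g3 i)
  have hWout : ∀ x ∈ W, x ∉ Set.range r ∧ (Q x = α ∨ Q x = γ) := by
    rintro x ⟨w⟩
    exact walk_induct (K := KG G Q r α γ) (S := fun x => x ∉ Set.range r ∧ (Q x = α ∨ Q x = γ))
      (fun a b hab => hab.2.2) w ⟨g3 _, Or.inl (hgα _)⟩
  have hroot := colp_root P p
  have hnext := colp_next P p
  have hprev := colp_prev P p
  have hW : Closed G (colp r Q β γ p) α γ W := by
    constructor
    · intro x hx
      rw [colp_out Q β γ p (hWout x hx).1]; exact (hWout x hx).2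
    · intro x hx y hxy hy
      by_cases hyr : y ∈ Set.range r
      · exfalso
        obtain ⟨k, rfl⟩ := hyr
        have hx1 := (hWout x hx).1
        rcases g5 k x hxy.symm with h | h | h | h
        · exact hx1 ⟨_, h.symm⟩
        · exact hx1 ⟨_, h.symm⟩
        · rw [h] at hx
          have hk := hq k hx
          rw [hk, hnext] at hy
          rcases hy with h' | h'
          · exact P.cols.ab h'.symm
          · exact P.cols.bc h'
        · rw [h] at hx
          have hk := hq (k + 1) hx
          have hk' : k = p := add_right_cancel hk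
          rw [hk', hroot] at hy
          rcases hy with h' | h'
          · exact P.cols.a3 h'.symm
          · exact P.cols.c3 h'.symm
      · rw [colp_out Q β γ p hyr] at hy
        have hadj : (KG G Q r α γ).Adj x y := ⟨hxy, hWout x hx, hyr, hy⟩
        exact SimpleGraph.Reachable.trans hx hadj.reachable
  have hrW : ∀ i, r i ∉ W := fun i h => (hWout _ h).1 ⟨i, rfl⟩
  have hmp := colp_mini P hm hout p
  have hlink : Linked G (flip (colp r Q β γ p) α γ W) (r (p + 1)) (r (p - 1)) := by
    have hex := cyc_walk P p (n - 1) (by omega)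
    have hcast : ((n - 1 : ℕ) : ZMod n) = -1 := by
      rw [Nat.cast_sub (by omega), ZMod.natCast_self, Nat.cast_one, zero_sub]
    have hend : r (p + ((n - 1 : ℕ) : ZMod n)) = r (p - 1) := by
      rw [hcast, ← sub_eq_add_neg]
    rw [hend] at hex
    obtain ⟨w, hw⟩ := hex
    refine ⟨w, fun z hz => ?_⟩
    obtain ⟨j, hj1, hj2, rfl⟩ := hw z hz
    rw [flip_of_notMem (hrW _), flip_of_notMem (hrW _), flip_of_notMem (hrW _), hnext, hprev,
      colp_in P.inj]
    have h1 : p + (j : ZMod n) - p = (j : ZMod n) := by ring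
    rw [h1, ZMod.val_natCast_of_lt (by omega)]
    exact cc_pos (by omega)
  have hg' : ∀ i, colp r Q β γ p (g i) = α := by
    intro i
    rw [colp_out Q β γ p (g3 i)]; exact hgα i
  have hpW : g p ∉ W := by
    intro h
    have h1 := hq p h
    apply P.one_ne
    have h2 : (1 : ZMod n) = (p + 1) - p := by ring
    rw [h2, ← h1, sub_self]
  have hadj3 : G.Adj (g p) (r (p - 1)) := by
    have := g2 (p - 1)
    rw [sub_add_cancel] at this
    exact this.symm
  exact hbad _ (flip_proper hmp.1 hW)
    (flip_good hmp P.cols (v := r p) (u := g (p + 1)) (u' := g p) (c := r (p + 1))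
      (d := r (p - 1)) hroot (hg' _) (hg' _) hnext hprev (g1 p) (P.adj p) (P.adj' p)
      (fun x hx => by
        rcases g5 p x hx with h | h | h | h
        · exact Or.inr (Or.inr (Or.inl h))
        · exact Or.inr (Or.inr (Or.inr h))
        · exact Or.inr (Or.inl h)
        · exact Or.inl h)
      hadj3 hW (SimpleGraph.Reachable.refl _) hpW (hrW _) hlink)

theorem exists_good [Fintype V] (hcf : ClawFree G) (h4 : ∃ Q, Proper G Q)
    (h3 : ∀ Q, Proper G Q → ∃ v, Q v = 3) : ∃ Q, Proper G Q ∧ Good G Q := by
  by_contra hcon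
  push Not at hcon
  obtain ⟨Q, hm⟩ := exists_mini h4
  obtain ⟨v, hv⟩ := h3 Q hm.1
  obtain ⟨a, b, a', b', hN⟩ := root_nbhd hcf hm hcon hv
  obtain ⟨α, β, γ, n, r, P⟩ := exists_precyc hcf hm hv hN
  exact final hcf hm hcon P

/-- Every finite claw-free graph of chromatic number four has a chromatic 4-scheme. -/
theorem main {V : Type u} [Finite V] (G : SimpleGraph V) (hcf : ClawFree G)
    (hχ : G.chromaticNumber = 4) : Nonempty (ChromaticFourScheme G) := by
  have := Fintype.ofFinite V
  have h4 : G.Colorable 4 := by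
    rw [← SimpleGraph.chromaticNumber_le_iff_colorable, hχ]; rfl
  have h3 : ¬G.Colorable 3 := by
    rw [← SimpleGraph.chromaticNumber_le_iff_colorable, hχ]
    decide
  obtain ⟨Q, hQ, hgood⟩ := exists_good hcf
    (by
      obtain ⟨C⟩ := h4
      exact ⟨C, fun x y hxy => C.valid hxy⟩)
    (by
      intro Q hQ
      by_contra hcon
      push Not at hcon
      apply h3
      refine ⟨SimpleGraph.Coloring.mk (fun x => (⟨(Q x).val, ?_⟩ : Fin 3)) ?_⟩
      · have h1 := hcon x
        have h2 := (Q x).isLt
        rcases Nat.lt_or_ge (Q x).val 3 with h | h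
        · exact h
        · exact absurd (Fin.ext (by simp; omega)) h1
      · intro a b hab h
        apply hQ a b hab
        have := congrArg Fin.val h
        exact Fin.ext this)
  exact scheme_of_good hQ hgood

end Pool.Agent.Helper58.Scheme
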