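import Pool.Agent.Helper58.Scheme.Cycle

set_option autoImplicit false

namespace Pool.Agent.Helper58.Scheme

universe u

theorem small_ne {n : ℕ} (m : ℕ) (h0 : 0 < m) (hm : m < n) : (m : ZMod n) ≠ 0 := by
  rw [Ne, ZMod.natCast_eq_zero_iff]
  exact Nat.not_dvd_of_pos_of_lt h0 hm

variable {V : Type u} {G : SimpleGraph V}

theorem Cols.swap {α β γ : Fin 4} (h : Cols α β γ) : Cols α γ β :=
  ⟨h.ac, h.ab, h.bc.symm, h.a3, h.c3, h.b3⟩

theorem pick1 {Q : V → Fin 4} {α β γ : Fin 4} (hc : Cols α β γ) {a b a' b' : V}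
    (hcol : ∃ α' β' γ', Cols α' β' γ' ∧ Q a = α' ∧ Q a' = α' ∧ Q b = β' ∧ Q b' = γ')
    (ha : Q a = β ∨ Q a = γ) (hb : Q b = β ∨ Q b = γ) :
    Q b' = α ∧ (Q a' = β ∨ Q a' = γ) := by
  obtain ⟨α', β', γ', hc', h1, h2, h3, h4⟩ := hcol
  rw [h1] at ha; rw [h3] at hb; rw [h2, h4]
  refine ⟨?_, ha⟩
  rcases hc.exh γ' with h | h | h | h
  · exact h
  · rcases ha with ha | ha
    · exact absurd (ha.trans h.symm) hc'.ac
    · rcases hb with hb | hb
      · exact absurd (hb.trans h.symm) hc'.bc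
      · exact absurd (ha.trans hb.symm) hc'.ab
  · rcases ha with ha | ha
    · rcases hb with hb | hb
      · exact absurd (ha.trans hb.symm) hc'.ab
      · exact absurd (hb.trans h.symm) hc'.bc
    · exact absurd (ha.trans h.symm) hc'.ac
  · exact absurd h hc'.c3

theorem pick2 {Q : V → Fin 4} {α β γ : Fin 4} (hc : Cols α β γ) {a b a' b' : V}
    (hcol : ∃ α' β' γ', Cols α' β' γ' ∧ Q a = α' ∧ Q a' = α' ∧ Q b = β' ∧ Q b' = γ')
    (ha : Q a' = β ∨ Q a' = γ) (hb : Q b' = β ∨ Q b' = γ) :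
    Q b = α ∧ (Q a = β ∨ Q a = γ) := by
  obtain ⟨α', β', γ', hc', h1, h2, h3, h4⟩ := hcol
  exact pick1 hc ⟨α', γ', β', hc'.swap, h2, h1, h4, h3⟩ ha hb

section cyc

variable {Q : V → Fin 4} {n : ℕ} {r : ZMod n → V} {α β γ : Fin 4}

theorem PreCyc.neZero (P : PreCyc G Q n r α β γ) : NeZero n := ⟨by have := P.five; omega⟩

theorem PreCyc.one_ne (P : PreCyc G Q n r α β γ) : (1 : ZMod n) ≠ 0 := by
  have := small_ne (n := n) 1 (by omega) (by have := P.five; omega)
  exact_mod_cast this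

theorem PreCyc.two_ne (P : PreCyc G Q n r α β γ) : (2 : ZMod n) ≠ 0 := by
  have := small_ne (n := n) 2 (by omega) (by have := P.five; omega)
  exact_mod_cast this

theorem PreCyc.three_ne (P : PreCyc G Q n r α β γ) : (3 : ZMod n) ≠ 0 := by
  have := small_ne (n := n) 3 (by omega) (by have := P.five; omega)
  exact_mod_cast this

theorem PreCyc.adj' (P : PreCyc G Q n r α β γ) (i : ZMod n) : G.Adj (r i) (r (i - 1)) := by
  have := P.adj (i - 1); rw [sub_add_cancel] at this; exact this.symm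

theorem PreCyc.pm_ne (P : PreCyc G Q n r α β γ) (i : ZMod n) : r (i + 1) ≠ r (i - 1) := by
  intro h
  have h1 := P.inj h
  apply P.two_ne
  have h2 : (2 : ZMod n) = (i + 1) - (i - 1) := by ring
  rw [h2, h1, sub_self]

theorem PreCyc.pm_nadj (P : PreCyc G Q n r α β γ) (i : ZMod n) :
    ¬G.Adj (r (i + 1)) (r (i - 1)) := by
  intro h
  rcases P.chord _ _ h with h | h
  · apply P.three_ne
    have h2 : (3 : ZMod n) = (i + 1 + 1) - (i - 1) := by ring
    rw [h2, ← h, sub_self]
  · apply P.one_ne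
    have h2 : (1 : ZMod n) = (i + 1 - 1) - (i - 1) := by ring
    rw [h2, ← h, sub_self]

theorem PreCyc.col_pos (P : PreCyc G Q n r α β γ) {i : ZMod n} (hi : i ≠ 0) :
    Q (r i) = β ∨ Q (r i) = γ := by
  have := P.neZero
  rw [P.col]
  exact cc_pos (fun h => hi ((ZMod.val_eq_zero i).mp h))

theorem PreCyc.col_zero (P : PreCyc G Q n r α β γ) : Q (r 0) = 3 := by
  rw [P.col, ZMod.val_zero, cc_zero]

theorem PreCyc.col_range (P : PreCyc G Q n r α β γ) {x : V} (hx : x ∈ Set.range r) :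
    Q x ≠ α := by
  obtain ⟨i, rfl⟩ := hx
  intro h
  rw [P.col] at h
  rcases cc_cases β γ i.val with h' | h' | h'
  · exact P.cols.a3 (h.symm.trans h')
  · exact P.cols.ab (h.symm.trans h')
  · exact P.cols.ac (h.symm.trans h')

/-- consecutive cycle vertices get different colours -/
theorem colp_step (P : PreCyc G Q n r α β γ) {s t : Fin 4} (hst : s ≠ t) (hs : s ≠ 3)
    (ht : t ≠ 3) (B : V → Fin 4) (p k : ZMod n) :
    colp r B s t p (r k) ≠ colp r B s t p (r (k + 1)) := by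
  have := P.neZero
  rw [colp_in P.inj, colp_in P.inj]
  have h1 : (k + 1 - p) = (k - p) + 1 := by ring
  rw [h1, val_succ]
  exact cc_step_ne hst hs ht (by have := P.five; omega) (ZMod.val_lt _)

theorem colp_in_ne (P : PreCyc G Q n r α β γ) {s t : Fin 4} (hst : s ≠ t) (hs : s ≠ 3)
    (ht : t ≠ 3) (B : V → Fin 4) (p : ZMod n) {i j : ZMod n} (h : G.Adj (r i) (r j)) :
    colp r B s t p (r i) ≠ colp r B s t p (r j) := by
  rcases P.chord i j h with rfl | rfl
  · exact colp_step P hst hs ht B p i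
  · have := colp_step P hst hs ht B p (i - 1)
    rw [sub_add_cancel] at this
    exact this.symm

theorem colp_eq_three (P : PreCyc G Q n r α β γ) {s t : Fin 4} (hs : s ≠ 3)
    (ht : t ≠ 3) (B : V → Fin 4) (p : ZMod n) {i : ZMod n} (h : colp r B s t p (r i) = 3) :
    i = p := by
  have := P.neZero
  rw [colp_in P.inj] at h
  by_contra hne
  have h0 : (i - p).val ≠ 0 := fun h' => hne (sub_eq_zero.mp ((ZMod.val_eq_zero _).mp h'))
  rcases cc_pos (s := s) (t := t) h0 with h' | h'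
  · exact hs (h'.symm.trans h)
  · exact ht (h'.symm.trans h)

theorem PreCyc.out_alpha [Fintype V] (hcf : ClawFree G) (hm : Mini G Q)
    (hbad : ∀ Q', Proper G Q' → ¬Good G Q') (P : PreCyc G Q n r α β γ) :
    ∀ i x, G.Adj (r i) x → x ∉ Set.range r → Q x = α := by
  classical
  have hn5 := P.five
  have := P.neZero
  by_contra hcon
  push Not at hcon
  obtain ⟨i1, x1, hx1, hx1r, hx1a⟩ := hcon
  have hx13 : Q x1 = 3 := (P.out i1 x1 hx1 hx1r).resolve_left hx1a
  have hex : ∃ k : ℕ, k < n ∧ ∃ w, w ∉ Set.range r ∧ Q w = 3 ∧ G.Adj (r (k : ZMod n)) w :=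
    ⟨i1.val, ZMod.val_lt i1, x1, hx1r, hx13, by rw [ZMod.natCast_zmod_val]; exact hx1⟩
  let k0 := Nat.find hex
  obtain ⟨hk0, w, hwr, hw3, hiw⟩ := Nat.find_spec hex
  have hmin : ∀ m, m < k0 → ¬(m < n ∧ ∃ w, w ∉ Set.range r ∧ Q w = 3 ∧ G.Adj (r (m : ZMod n)) w) :=
    fun m hm' => Nat.find_min hex hm'
  set i : ZMod n := ((Nat.find hex : ℕ) : ZMod n) with hi
  have hival : i.val = k0 := ZMod.val_natCast_of_lt hk0
  have hi0 : i ≠ 0 := by
    intro h
    rw [h] at hiw
    exact hm.1 _ _ hiw (P.col_zero.trans hw3.symm)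
  have hk0pos : k0 ≠ 0 := by
    intro h
    apply hi0
    rw [← ZMod.val_eq_zero i, hival, h]
  have hprev : ∀ w', w' ∉ Set.range r → Q w' = 3 → ¬G.Adj (r (i - 1)) w' := by
    intro w' hw' hw'3 hadj
    have h1 := val_pred (n := n) (by omega) i
    rw [hival] at h1
    rcases h1 with h1 | h1
    · exact hk0pos h1.1
    · have h2 : ((k0 - 1 : ℕ) : ZMod n) = i - 1 := by
        rw [← h1.2, ZMod.natCast_zmod_val]
      exact hmin (k0 - 1) (by omega) ⟨by omega, w', hw', hw'3, by rw [h2]; exact hadj⟩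
  have hnext : ∀ w', w' ∉ Set.range r → Q w' = 3 → G.Adj (r i) w' → G.Adj (r (i + 1)) w' := by
    intro w' hw' hw'3 hadj
    rcases hcf (r i) (r (i + 1)) (r (i - 1)) w' (P.adj i) (P.adj' i) hadj (P.pm_ne i)
      (fun e => hw' ⟨_, e⟩) (fun e => hw' ⟨_, e⟩) with h | h | h
    · exact absurd h (P.pm_nadj i)
    · exact h
    · exact absurd h (hprev w' hw' hw'3)
  have hw1 := hnext w hwr hw3 hiw
  have hi1 : i + 1 ≠ 0 := by
    intro h
    rw [h] at hw1
    exact hm.1 _ _ hw1 (P.col_zero.trans hw3.symm)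
  obtain ⟨a, b, a', b', hN⟩ := root_nbhd hcf hm hbad hw3
  have hci := P.col_pos hi0
  have hci1 := P.col_pos hi1
  have hadj := P.adj i
  obtain ⟨x, y, hwx, hwy, hallw, hxα, hyc, hyi, hyi1⟩ : ∃ x y, G.Adj w x ∧ G.Adj w y ∧
      (∀ z, G.Adj w z → z = r i ∨ z = r (i + 1) ∨ z = x ∨ z = y) ∧ Q x = α ∧
      (Q y = β ∨ Q y = γ) ∧ ¬G.Adj y (r i) ∧ ¬G.Adj y (r (i + 1)) := by
    rcases hN.all (r i) hiw.symm with h1 | h1 | h1 | h1 <;>
      rcases hN.all (r (i + 1)) hw1.symm with h2 | h2 | h2 | h2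
    · rw [h1, h2] at hadj; exact absurd hadj (G.loopless.irrefl _)
    · rw [h1, h2] at hadj; exact absurd hadj hN.nuu'
    · -- r i = a, r (i+1) = b
      rw [h1] at hci; rw [h2] at hci1
      obtain ⟨h3, h4⟩ := pick1 P.cols hN.col hci hci1
      refine ⟨b', a', hN.vd, hN.vu', ?_, h3, h4, ?_, ?_⟩
      · intro z hz; rcases hN.all z hz with h | h | h | h <;> simp [h, h1, h2]
      · rw [h1]; exact fun h => hN.nuu' h.symm
      · rw [h2]; exact hN.nu'c
    · rw [h1, h2] at hadj; exact absurd hadj hN.nud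
    · rw [h1, h2] at hadj; exact absurd hadj.symm hN.nuu'
    · rw [h1, h2] at hadj; exact absurd hadj (G.loopless.irrefl _)
    · rw [h1, h2] at hadj; exact absurd hadj hN.nu'c
    · -- r i = a', r (i+1) = b'
      rw [h1] at hci; rw [h2] at hci1
      obtain ⟨h3, h4⟩ := pick2 P.cols hN.col hci hci1
      refine ⟨b, a, hN.vc, hN.vu, ?_, h3, h4, ?_, ?_⟩
      · intro z hz; rcases hN.all z hz with h | h | h | h <;> simp [h, h1, h2]
      · rw [h1]; exact hN.nuu'
      · rw [h2]; exact hN.nud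
    · -- r i = b, r (i+1) = a
      rw [h1] at hci; rw [h2] at hci1
      obtain ⟨h3, h4⟩ := pick1 P.cols hN.col hci1 hci
      refine ⟨b', a', hN.vd, hN.vu', ?_, h3, h4, ?_, ?_⟩
      · intro z hz; rcases hN.all z hz with h | h | h | h <;> simp [h, h1, h2]
      · rw [h1]; exact hN.nu'c
      · rw [h2]; exact fun h => hN.nuu' h.symm
    · rw [h1, h2] at hadj; exact absurd hadj.symm hN.nu'c
    · rw [h1, h2] at hadj; exact absurd hadj (G.loopless.irrefl _)
    · rw [h1, h2] at hadj; exact absurd hadj hN.ncd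
    · rw [h1, h2] at hadj; exact absurd hadj.symm hN.nud
    · -- r i = b', r (i+1) = a'
      rw [h1] at hci; rw [h2] at hci1
      obtain ⟨h3, h4⟩ := pick2 P.cols hN.col hci1 hci
      refine ⟨b, a, hN.vc, hN.vu, ?_, h3, h4, ?_, ?_⟩
      · intro z hz; rcases hN.all z hz with h | h | h | h <;> simp [h, h1, h2]
      · rw [h1]; exact hN.nud
      · rw [h2]; exact hN.nuu'
    · rw [h1, h2] at hadj; exact absurd hadj.symm hN.ncd
    · rw [h1, h2] at hadj; exact absurd hadj (G.loopless.irrefl _)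
  have hxr : x ∉ Set.range r := fun h => P.col_range h hxα
  have hyr : y ∉ Set.range r := by
    rintro ⟨j, rfl⟩
    have hw' := hwy.symm
    have hz : ∀ z, G.Adj (r j) z → z ∈ Set.range r → ¬G.Adj w z := by
      intro z hjz hzr hwz
      rcases hallw z hwz with h | h | h | h
      · rw [h] at hjz; exact hyi hjz
      · rw [h] at hjz; exact hyi1 hjz
      · rw [h] at hzr; exact hxr hzr
      · rw [h] at hjz; exact G.loopless.irrefl _ hjz
    rcases hcf (r j) (r (j + 1)) (r (j - 1)) w (P.adj j) (P.adj' j) hw' (P.pm_ne j)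
      (fun e => hwr ⟨_, e⟩) (fun e => hwr ⟨_, e⟩) with h | h | h
    · exact P.pm_nadj j h
    · exact hz _ (P.adj j) ⟨_, rfl⟩ h.symm
    · exact hz _ (P.adj' j) ⟨_, rfl⟩ h.symm
  have hxw : x ≠ w := fun e => by rw [e] at hwx; exact G.loopless.irrefl _ hwx
  have hyw : y ≠ w := fun e => by rw [e] at hwy; exact G.loopless.irrefl _ hwy
  -- the two colours
  obtain ⟨t, t', hyt, hct⟩ : ∃ t t', Q y = t ∧ Cols α t t' := by
    rcases hyc with h | h
    · exact ⟨β, γ, h, P.cols⟩
    · exact ⟨γ, β, h, P.cols.swap⟩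
  -- the new colouring
  let C := colp r Q t t' i
  let Q' := Function.update C w t'
  have hQw : Q' w = t' := Function.update_self _ _ _
  have hQne : ∀ z, z ≠ w → Q' z = C z := fun z hz => Function.update_of_ne hz _ _
  have hrw : ∀ j, r j ≠ w := fun j e => hwr ⟨j, e⟩
  have hCi : C (r i) = 3 := by
    change colp r Q t t' i (r i) = 3
    rw [colp_in P.inj, sub_self, ZMod.val_zero, cc_zero]
  have hCi1 : C (r (i + 1)) = t := by
    change colp r Q t t' i (r (i + 1)) = t
    rw [colp_in P.inj]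
    have h1 : i + 1 - i = 1 := by ring
    have h2 : (1 : ZMod n).val = 1 := by
      rw [ZMod.val_one_eq_one_mod, Nat.mod_eq_of_lt (by omega)]
    rw [h1, h2, cc_odd (by decide)]
  have hCr : ∀ j, C (r j) = 3 ∨ C (r j) = t ∨ C (r j) = t' := by
    intro j
    change colp r Q t t' i (r j) = 3 ∨ colp r Q t t' i (r j) = t ∨ colp r Q t t' i (r j) = t'
    rw [colp_in P.inj]
    exact cc_cases _ _ _
  have hCout : ∀ z, z ∉ Set.range r → C z = Q z := fun z hz => colp_out Q t t' i hz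
  -- properness at w
  have hpw : ∀ z, G.Adj w z → Q' z ≠ t' := by
    intro z hz
    have hzw : z ≠ w := fun e => by rw [e] at hz; exact G.loopless.irrefl _ hz
    rw [hQne z hzw]
    rcases hallw z hz with h | h | h | h
    · rw [h, hCi]; exact hct.c3.symm
    · rw [h, hCi1]; exact hct.bc
    · rw [h, hCout x hxr, hxα]; exact hct.ac
    · rw [h, hCout y hyr, hyt]; exact hct.bc
  have hmix : ∀ j z, z ∉ Set.range r → z ≠ w → G.Adj (r j) z → C (r j) ≠ C z := by
    intro j z hzr hzw hjz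
    rw [hCout z hzr]
    rcases P.out j z hjz hzr with h | h
    · rw [h]
      rcases hCr j with h' | h' | h' <;> rw [h']
      · exact hct.a3.symm
      · exact hct.ab.symm
      · exact hct.ac.symm
    · rw [h]
      intro h3
      have hj : j = i := colp_eq_three P hct.b3 hct.c3 Q i h3
      subst hj
      have h4 := hnext z hzr h hjz
      rcases hcf (r i) w z (r (i - 1)) hiw hjz (P.adj' i) hzw.symm
        (fun e => hwr ⟨_, e.symm⟩) (fun e => hzr ⟨_, e.symm⟩) with h5 | h5 | h5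
      · exact hm.1 _ _ h5 (hw3.trans h.symm)
      · exact hprev w hwr hw3 h5.symm
      · exact hprev z hzr h h5.symm
  have hQ'prop : Proper G Q' := by
    intro a1 b1 hab
    by_cases ha : a1 = w
    · subst ha
      rw [hQw]; exact (hpw b1 hab).symm
    by_cases hb : b1 = w
    · subst hb
      rw [hQw]; exact hpw a1 hab.symm
    rw [hQne a1 ha, hQne b1 hb]
    by_cases har : a1 ∈ Set.range r <;> by_cases hbr : b1 ∈ Set.range r
    · obtain ⟨j, rfl⟩ := har
      obtain ⟨k, rfl⟩ := hbr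
      exact colp_in_ne P hct.bc hct.b3 hct.c3 Q i hab
    · obtain ⟨j, rfl⟩ := har
      exact hmix j b1 hbr hb hab
    · obtain ⟨j, rfl⟩ := hbr
      exact (hmix j a1 har ha hab.symm).symm
    · rw [hCout a1 har, hCout b1 hbr]; exact hm.1 _ _ hab
  have hsub : three Q' ⊆ insert (r i) (((three Q).erase w).erase (r 0)) := by
    intro z hz
    rw [mem_three] at hz
    have hzw : z ≠ w := by
      rintro rfl
      rw [hQw] at hz; exact hct.c3 hz
    rw [hQne z hzw] at hz
    rw [Finset.mem_insert, Finset.mem_erase, Finset.mem_erase, mem_three]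
    by_cases hzr : z ∈ Set.range r
    · obtain ⟨j, rfl⟩ := hzr
      left
      rw [colp_eq_three P hct.b3 hct.c3 Q i hz]
    · right
      rw [hCout z hzr] at hz
      exact ⟨fun e => hzr ⟨0, e.symm⟩, hzw, hz⟩
  have hcard : (three Q').card < (three Q).card := by
    have h1 := Finset.card_le_card hsub
    have h2 := Finset.card_insert_le (r i) (((three Q).erase w).erase (r 0))
    have h3 := Finset.card_erase_add_one (s := three Q) (mem_three.mpr hw3)
    have h4 := Finset.card_erase_add_one (s := (three Q).erase w) (a := r 0)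
      (Finset.mem_erase.mpr ⟨hrw 0, mem_three.mpr P.col_zero⟩)
    omega
  exact absurd (hm.2 Q' hQ'prop) (not_le.mpr hcard)

end cyc

end Pool.Agent.Helper58.Scheme
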